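import Pool.Agent.Helper62.BM.Stm3
import Pool.Agent.Helper36.BM.Ode2

/-!
# The soft Stepanov method for polynomials in the entries of the Hasse-Witt matrix: preparations
-/

set_option autoImplicit false

open Polynomial Matrix Finset

namespace Pool.Agent.Helper12.BM

open Pool.Agent.Helper62.BM

/-- The Hasse-Witt determinant is not zero. -/
def S_HWdet : Prop :=
  ∀ (k : Type) [Field k] (p : ℕ) [Fact p.Prime] [CharP k p], 2 < p → ∀ g : ℕ, 1 ≤ g →
    2 * g ≤ p + 1 → ∀ a : Fin (2 * g) → k, Function.Injective a →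
    ((YX p g a).submatrix id lo).det ≠ 0

/-- `S_Step` with an index type. -/
theorem stepJ (hS : S_Step) (A : Type) [CommRing A] [IsDomain A] [CharZero A] (σ : Type)
    [Fintype σ] [DecidableEq σ] (J : Type) [Fintype J] (η₀ : MvPolynomial σ A[X])
    (η : J → MvPolynomial σ A[X]) (h₀ : η₀ ≠ 0) (q : A[X]) (M₀ : J → A[X]) (M : J → J → A[X])
    (hq : q ≠ 0) (ε : ℝ) (hε : 0 < ε) (Cd : ℕ) :
    ∃ (e A₀ β p₀ : ℕ) (a₀ : A), a₀ ≠ 0 ∧ ∀ (p : ℕ) [Fact p.Prime] (k : Type) [Field k]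
      [CharP k p] (φ : A →+* k), p₀ ≤ p → φ a₀ ≠ 0 → ∀ (Z₀ : k[X]) (Z : J → k[X])
      (S : σ → KX k),
      (ι k Z₀ = MvPolynomial.eval₂ ((ι k).comp (Polynomial.mapRingHom φ)) S η₀) →
      (∀ j, ι k (Z j) = MvPolynomial.eval₂ ((ι k).comp (Polynomial.mapRingHom φ)) S (η j)) →
      (q.map φ * derivative Z₀ = ∑ j, (M₀ j).map φ * Z j) →
      (∀ j, q.map φ * derivative (Z j) = ∑ j', (M j' j).map φ * Z j') →
      Z₀.natDegree ≤ Cd * p → (∀ j, (Z j).natDegree ≤ Cd * p) → NVp k p S e A₀ β →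
      ∀ T : Finset k, (∀ t ∈ T, t ^ p = t ∧ Z₀.eval t = 0) → (T.card : ℝ) ≤ ε * p := by
  classical
  let en := Fintype.equivFin J
  obtain ⟨e, A₀, β, p₀, a₀, ha₀, h⟩ := hS A σ (Fintype.card J)
    (Fin.cons (α := fun _ => MvPolynomial σ A[X]) η₀ fun i => η (en.symm i))
    (by rw [Fin.cons_zero]; exact h₀) q
    (Matrix.of fun l' l => Fin.cons (α := fun _ => A[X]) 0
      (fun i' => Fin.cons (α := fun _ => A[X]) (M₀ (en.symm i'))
        (fun i => M (en.symm i') (en.symm i)) l) l') hq ε hε Cd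
  refine ⟨e, A₀, β, p₀, a₀, ha₀, fun p _ k _ _ φ hp hφ Z₀ Z S e₀ e₁ o₀ o₁ d₀ d₁ hNV T hT => ?_⟩
  refine h p k φ hp hφ (Fin.cons (α := fun _ => k[X]) Z₀ fun i => Z (en.symm i)) 1 S one_ne_zero
    ?_ ?_ ?_ hNV T ?_
  · intro l
    rw [one_mul]
    refine Fin.cases ?_ (fun i => ?_) l
    · rw [Fin.cons_zero, Fin.cons_zero]; exact e₀
    · rw [Fin.cons_succ, Fin.cons_succ]; exact e₁ _
  · intro l
    rw [Fin.sum_univ_succ]
    simp only [Matrix.of_apply, Fin.cons_zero, Fin.cons_succ, Polynomial.map_zero, zero_mul,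
      zero_add]
    refine Fin.cases ?_ (fun i => ?_) l
    · simp only [Fin.cons_zero]
      rw [o₀]
      exact (Equiv.sum_comp en.symm fun j => (M₀ j).map φ * Z j).symm
    · simp only [Fin.cons_succ]
      rw [o₁]
      exact (Equiv.sum_comp en.symm fun j => (M j (en.symm i)).map φ * Z j).symm
  · intro l
    refine Fin.cases ?_ (fun i => ?_) l
    · rw [Fin.cons_zero]; exact d₀
    · rw [Fin.cons_succ]; exact d₁ _
  · intro t ht
    rw [Fin.cons_zero]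
    exact hT t ht

section defs

variable {C : Type} [CommRing C]

/-- `2 Qx` over `C[X]`. -/
noncomputable def Q2 {n : ℕ} (a : Fin n → C) : Matrix (Fin n) (Fin n) C[X] :=
  Matrix.of fun l m => (((l : ℕ) : C[X]) - ((m : ℕ) : C[X])) * (fmx a).coeff ((l : ℕ) + m + 2)

/-- `2 det Q'₁₂`. -/
noncomputable def cst {g : ℕ} (a : Fin (2 * g) → C) : C[X] :=
  2 * ((Q2 a).submatrix lo hi).det

/-- The generic symmetric matrix. -/
noncomputable def Sh (C : Type) [CommRing C] (g : ℕ) :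
    Matrix (Fin g) (Fin g) (MvPolynomial (Vars g) C[X]) :=
  Matrix.of fun l m => MvPolynomial.X (Sum.inr ⟨(min l m, max l m), min_le_max⟩)

/-- The generic first block. -/
noncomputable def Yh (C : Type) [CommRing C] (g : ℕ) :
    Matrix (Fin g) (Fin g) (MvPolynomial (Vars g) C[X]) :=
  Matrix.of fun l m => MvPolynomial.X (Sum.inl (l, m))

/-- `Y₁ (4 S + Q'₁₁) adj(Q'₁₂ᵀ)`. -/
noncomputable def R2 {g : ℕ} (a : Fin (2 * g) → C) :
    Matrix (Fin g) (Fin g) (MvPolynomial (Vars g) C[X]) :=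
  Yh C g * (((4 : MvPolynomial (Vars g) C[X]) • Sh C g +
    ((Q2 a).submatrix lo lo).map MvPolynomial.C) *
      ((((Q2 a).submatrix lo hi)ᵀ).adjugate).map MvPolynomial.C)

/-- The generic frame (times `2 det Q'₁₂`). -/
noncomputable def Rm {g : ℕ} (a : Fin (2 * g) → C) :
    Matrix (Fin g) (Fin (2 * g)) (MvPolynomial (Vars g) C[X]) :=
  Matrix.of fun i s => if h : (s : ℕ) < g then
    MvPolynomial.C (cst a) * MvPolynomial.X (Sum.inl (i, ⟨s, h⟩))
    else R2 a i ⟨s - g, by have := s.2; omega⟩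

theorem Rm_lo {g : ℕ} (a : Fin (2 * g) → C) (i j : Fin g) :
    Rm a i (lo j) = MvPolynomial.C (cst a) * MvPolynomial.X (Sum.inl (i, j)) := by
  unfold Rm lo
  rw [Matrix.of_apply, dif_pos j.2]

theorem Rm_hi {g : ℕ} (a : Fin (2 * g) → C) (i j : Fin g) : Rm a i (hi j) = R2 a i j := by
  unfold Rm hi
  rw [Matrix.of_apply, dif_neg (by simp)]
  congr 1
  ext
  simp

theorem lo_or_hi {g : ℕ} (s : Fin (2 * g)) : (∃ j, s = lo j) ∨ ∃ j, s = hi j := by
  by_cases h : (s : ℕ) < g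
  · exact Or.inl ⟨⟨s, h⟩, rfl⟩
  · refine Or.inr ⟨⟨s - g, by have := s.2; omega⟩, ?_⟩
    ext
    simp only [hi]
    omega

end defs

section split

variable {F : Type} [Field F] {g : ℕ}

/-- Sums over the two halves. -/
theorem sum_split {M : Type} [AddCommMonoid M] (f : Fin (2 * g) → M) :
    ∑ s, f s = ∑ j : Fin g, f (lo j) + ∑ j : Fin g, f (hi j) := by
  have e : g + g = 2 * g := (two_mul g).symm
  rw [← Equiv.sum_comp (finCongr e) f, Fin.sum_univ_add]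
  congr 1

/-- The symmetry of `S`. -/
theorem Sm_symm (h2 : (2 : F) ≠ 0) (Q : Matrix (Fin (2 * g)) (Fin (2 * g)) F)
    (Y : Matrix (Fin g) (Fin (2 * g)) F) (hQ : Qᵀ = -Q) (hQ2 : Q.submatrix hi hi = 0)
    (hY : (Y.submatrix id lo).det ≠ 0) (hI : Y * Q * Yᵀ = 0) (l m : Fin g) :
    Sm Q Y l m = Sm Q Y m l := by
  set Y1 := Y.submatrix id lo with hY1
  set Y2 := Y.submatrix id (hi : Fin g → Fin (2 * g)) with hY2
  set Q11 := Q.submatrix (lo : Fin g → Fin (2 * g)) lo with hQ11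
  set Q12 := Q.submatrix (lo : Fin g → Fin (2 * g)) hi with hQ12
  have a1 : Q11ᵀ = -Q11 := by
    ext i j
    have := congrFun (congrFun hQ (lo i)) (lo j)
    simpa [hQ11] using this
  have a2 : ∀ i j, Q (hi i) (lo j) = -(Q12ᵀ) i j := by
    intro i j
    have := congrFun (congrFun hQ (hi i)) (lo j)
    rw [Matrix.transpose_apply, Matrix.neg_apply] at this
    rw [hQ12, Matrix.transpose_apply, Matrix.submatrix_apply, this, neg_neg]
  have b1 : Y1 * Q11 * Y1ᵀ + Y1 * Q12 * Y2ᵀ - Y2 * Q12ᵀ * Y1ᵀ = 0 := by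
    ext i j
    have h0 := congrFun (congrFun hI i) j
    rw [Matrix.mul_apply, sum_split] at h0
    simp only [Matrix.mul_apply, Matrix.transpose_apply, sum_split (fun s => Y i s * Q s _)] at h0
    have h3 : ∀ x x', Q (hi x) (hi x') = 0 := fun x x' => by
      have := congrFun (congrFun hQ2 x) x'
      simpa using this
    simp only [h3, a2, mul_zero, Finset.sum_const_zero, add_zero, mul_neg,
      Finset.sum_neg_distrib] at h0
    rw [Matrix.sub_apply, Matrix.add_apply, Matrix.mul_apply, Matrix.mul_apply, Matrix.mul_apply]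
    simp only [Matrix.mul_apply, Matrix.transpose_apply, hY1, hY2, hQ11, hQ12,
      Matrix.submatrix_apply, id_eq] at h0 ⊢
    rw [Matrix.zero_apply] at h0 ⊢
    rw [← h0]
    simp only [add_mul, Finset.sum_add_distrib, neg_mul, Finset.sum_neg_distrib]
    ring
  have hu : IsUnit Y1.det := isUnit_iff_ne_zero.mpr hY
  have c1 : Y1⁻¹ * Y1 = 1 := Matrix.nonsing_inv_mul _ hu
  have c2 : Y1ᵀ * (Y1ᵀ)⁻¹ = 1 := by
    apply Matrix.mul_nonsing_inv
    rwa [Matrix.det_transpose]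
  have d1 : Q11 + Q12 * (Y1⁻¹ * Y2)ᵀ - Y1⁻¹ * Y2 * Q12ᵀ = 0 := by
    have h1 : Y1⁻¹ * (Y1 * Q11 * Y1ᵀ + Y1 * Q12 * Y2ᵀ - Y2 * Q12ᵀ * Y1ᵀ) * (Y1ᵀ)⁻¹ = 0 := by
      rw [b1, Matrix.mul_zero, Matrix.zero_mul]
    rw [Matrix.mul_sub, Matrix.mul_add, Matrix.sub_mul, Matrix.add_mul] at h1
    have e1 : Y1⁻¹ * (Y1 * Q11 * Y1ᵀ) * (Y1ᵀ)⁻¹ = Q11 := by
      calc _ = (Y1⁻¹ * Y1) * Q11 * (Y1ᵀ * (Y1ᵀ)⁻¹) := by simp only [Matrix.mul_assoc]
        _ = Q11 := by rw [c1, c2, Matrix.one_mul, Matrix.mul_one]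
    have e2 : Y1⁻¹ * (Y1 * Q12 * Y2ᵀ) * (Y1ᵀ)⁻¹ = Q12 * (Y1⁻¹ * Y2)ᵀ := by
      calc _ = (Y1⁻¹ * Y1) * Q12 * (Y2ᵀ * (Y1ᵀ)⁻¹) := by simp only [Matrix.mul_assoc]
        _ = _ := by
          rw [c1, Matrix.one_mul, Matrix.transpose_mul, Matrix.transpose_nonsing_inv]
    have e3 : Y1⁻¹ * (Y2 * Q12ᵀ * Y1ᵀ) * (Y1ᵀ)⁻¹ = Y1⁻¹ * Y2 * Q12ᵀ := by
      calc _ = Y1⁻¹ * Y2 * Q12ᵀ * (Y1ᵀ * (Y1ᵀ)⁻¹) := by simp only [Matrix.mul_assoc]
        _ = _ := by rw [c2, Matrix.mul_one]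
    rw [e1, e2, e3] at h1
    exact h1
  have f1 : (Sm Q Y)ᵀ = Sm Q Y := by
    have g1 : (Y1⁻¹ * Y2 * Q12ᵀ)ᵀ = Q12 * (Y1⁻¹ * Y2)ᵀ := by
      rw [Matrix.transpose_mul, Matrix.transpose_transpose]
    have g2 : Q12 * (Y1⁻¹ * Y2)ᵀ = Y1⁻¹ * Y2 * Q12ᵀ - Q11 := by
      rw [← sub_eq_zero, ← d1]
      abel
    have g3 : (2⁻¹ : F) • Q11 + (2⁻¹ : F) • Q11 = Q11 := by
      rw [← add_smul]
      have : (2⁻¹ : F) + 2⁻¹ = 1 := by
        rw [← two_mul, mul_inv_cancel₀ h2]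
      rw [this, one_smul]
    show (Y1⁻¹ * Y2 * Q12ᵀ - (2⁻¹ : F) • Q11)ᵀ = Y1⁻¹ * Y2 * Q12ᵀ - (2⁻¹ : F) • Q11
    rw [Matrix.transpose_sub, Matrix.transpose_smul, g1, g2, a1, smul_neg, sub_neg_eq_add]
    nth_rewrite 1 [← g3]
    abel
  have := congrFun (congrFun f1 m) l
  rw [Matrix.transpose_apply] at this
  exact this

/-- The evaluation of the generic frame. -/
theorem eval_Rm {C : Type} [CommRing C] (ψ : C[X] →+* F) (a : Fin (2 * g) → C)
    (h2 : (2 : F) ≠ 0) (Q : Matrix (Fin (2 * g)) (Fin (2 * g)) F)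
    (Y : Matrix (Fin g) (Fin (2 * g)) F) (hQ : Qᵀ = -Q) (hQ2 : Q.submatrix hi hi = 0)
    (hY : (Y.submatrix id lo).det ≠ 0) (hI : Y * Q * Yᵀ = 0)
    (hψ : ∀ l m, ψ (Q2 a l m) = 2 * Q l m) (i : Fin g) (s : Fin (2 * g)) :
    MvPolynomial.eval₂ ψ (frv Q Y) (Rm a i s) = ψ (cst a) * Y i s := by
  rcases lo_or_hi s with ⟨j, rfl⟩ | ⟨j, rfl⟩
  · rw [Rm_lo, MvPolynomial.eval₂_mul, MvPolynomial.eval₂_C, MvPolynomial.eval₂_X]
    rfl
  · rw [Rm_hi]
    set Ev : MvPolynomial (Vars g) C[X] →+* F := MvPolynomial.eval₂Hom ψ (frv Q Y) with hEv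
    have hC : ∀ c, Ev (MvPolynomial.C c) = ψ c := fun c => MvPolynomial.eval₂_C _ _ _
    have hX : ∀ v, Ev (MvPolynomial.X v) = frv Q Y v := fun c => MvPolynomial.eval₂_X _ _ _
    change Ev (R2 a i j) = _
    set Y1 := Y.submatrix id lo with hY1
    set Y2 := Y.submatrix id (hi : Fin g → Fin (2 * g)) with hY2
    set Q11 := Q.submatrix (lo : Fin g → Fin (2 * g)) lo with hQ11
    set Q12 := Q.submatrix (lo : Fin g → Fin (2 * g)) hi with hQ12
    have e1 : (Yh C g).map Ev = Y1 := by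
      ext l m
      rw [Matrix.map_apply, Yh, Matrix.of_apply, hX]
      rfl
    have e2 : (Sh C g).map Ev = Sm Q Y := by
      ext l m
      rw [Matrix.map_apply, Sh, Matrix.of_apply, hX]
      change Sm Q Y (min l m) (max l m) = Sm Q Y l m
      rcases le_total l m with h | h
      · rw [min_eq_left h, max_eq_right h]
      · rw [min_eq_right h, max_eq_left h]
        exact Sm_symm h2 Q Y hQ hQ2 hY hI m l
    have e3 : ((((Q2 a).submatrix lo lo).map MvPolynomial.C).map Ev :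
        Matrix (Fin g) (Fin g) F) = (2 : F) • Q11 := by
      ext l m
      rw [Matrix.map_apply, Matrix.map_apply, hC, Matrix.submatrix_apply, hψ]
      rfl
    have e4' : ((((Q2 a).submatrix lo hi)ᵀ : Matrix (Fin g) (Fin g) C[X])).map ψ =
        (2 : F) • Q12ᵀ := by
      ext l m
      rw [Matrix.map_apply, Matrix.transpose_apply, Matrix.submatrix_apply, hψ]
      rfl
    have e4 : (((((Q2 a).submatrix lo hi)ᵀ).adjugate).map MvPolynomial.C).map Ev =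
        ((2 : F) • Q12ᵀ).adjugate := by
      rw [← e4']
      have : (((((Q2 a).submatrix lo hi)ᵀ).adjugate).map MvPolynomial.C).map Ev =
          ((((Q2 a).submatrix lo hi)ᵀ).adjugate : Matrix (Fin g) (Fin g) C[X]).map ψ := by
        ext l m
        rw [Matrix.map_apply, Matrix.map_apply, hC, Matrix.map_apply]
      rw [this]
      exact RingHom.map_adjugate ψ _
    have e5 : ψ (cst a) = 2 * ((2 : F) • Q12ᵀ).det := by
      rw [cst, map_mul, map_ofNat, RingHom.map_det]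
      congr 1
      rw [← Matrix.det_transpose, ← e4']
      rfl
    have hu : IsUnit Y1.det := isUnit_iff_ne_zero.mpr hY
    have f0 : (R2 a).map Ev = Y1 * (((4 : F) • Sm Q Y + (2 : F) • Q11) *
        ((2 : F) • Q12ᵀ).adjugate) := by
      rw [R2, Matrix.map_mul, Matrix.map_mul, e1, e4, Matrix.map_add _ (map_add Ev), e3]
      congr 3
      ext l m
      rw [Matrix.map_apply, Matrix.smul_apply, smul_eq_mul, map_mul, map_ofNat, ← e2]
      rfl
    have f1 : (4 : F) • Sm Q Y + (2 : F) • Q11 = (2 : F) • (Y1⁻¹ * Y2 * ((2 : F) • Q12ᵀ)) := by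
      show (4 : F) • (Y1⁻¹ * Y2 * Q12ᵀ - (2⁻¹ : F) • Q11) + (2 : F) • Q11 = _
      rw [Matrix.mul_smul, smul_smul, smul_sub, smul_smul]
      have g1 : (4 : F) * 2⁻¹ = 2 := by
        rw [show (4 : F) = 2 * 2 by norm_num, mul_assoc, mul_inv_cancel₀ h2, mul_one]
      have g2 : (2 : F) * 2 = 4 := by norm_num
      rw [g1, g2]
      abel
    have f2 := congrFun (congrFun f0 i) j
    rw [Matrix.map_apply] at f2
    rw [f2, f1, e5]
    have f3 : Y1 * ((2 : F) • (Y1⁻¹ * Y2 * ((2 : F) • Q12ᵀ)) * ((2 : F) • Q12ᵀ).adjugate) =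
        (2 * ((2 : F) • Q12ᵀ).det) • Y2 := by
      rw [Matrix.smul_mul, Matrix.mul_assoc (Y1⁻¹ * Y2), Matrix.mul_adjugate, Matrix.mul_smul,
        Matrix.mul_smul, Matrix.mul_smul, Matrix.mul_one, ← Matrix.mul_assoc,
        Matrix.mul_nonsing_inv _ hu, Matrix.one_mul, smul_smul]
    rw [f3]
    rfl

end split

end Pool.Agent.Helper12.BM
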