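import Pool.Agent.Helper12.BM.FewA

/-!
# The differential equation of the Hasse-Witt functionals
-/

set_option autoImplicit false

open Polynomial Matrix Finset

namespace Pool.Agent.Helper12.BM

open Pool.Agent.Helper62.BM

section defs

variable {C : Type} [CommRing C] {n : ℕ}

/-- The connection, cleared of denominators. -/
noncomputable def b0 (a : Fin n → C) : Matrix (Fin n) (Fin n) C[X] :=
  Matrix.of fun i j => if i = j then 0 else bp a j

noncomputable def b1 (a : Fin n → C) : Matrix (Fin n) (Fin n) C[X] :=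
  (Em a).map Polynomial.C * b0 a * ((Em a).adjugate).map Polynomial.C

noncomputable def q1 (a : Fin n → C) : C[X] :=
  2 * (∏ j, (X - Polynomial.C (a j))) * Polynomial.C (Em a).det

/-- The denominator of the differential equation of `c Y`. -/
noncomputable def qh {g : ℕ} (a : Fin (2 * g) → C) : C[X] := cst a * q1 a

/-- The matrix of the differential equation of `c Y`. -/
noncomputable def bh {g : ℕ} (a : Fin (2 * g) → C) : Matrix (Fin (2 * g)) (Fin (2 * g)) C[X] :=
  Matrix.of fun m l => (if m = l then q1 a * derivative (cst a) else 0) + cst a * b1 a m l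

end defs

section ode

variable {C : Type} [CommRing C]

theorem ode1 {g n : ℕ} (a : Fin n → C) (Y : Matrix (Fin g) (Fin n) C[X])
    (h : ∀ i j, 2 * (X - Polynomial.C (a j)) *
      derivative ((Y * (Em a).map Polynomial.C) i j) =
      ∑ m ∈ univ.erase j, (Y * (Em a).map Polynomial.C) i m) (i : Fin g) (l : Fin n) :
    q1 a * derivative (Y i l) = ∑ m, Y i m * b1 a m l := by
  classical
  have h1 : (2 * (∏ j, (X - Polynomial.C (a j)))) •
      (Y.map derivative * (Em a).map Polynomial.C) = Y * (Em a).map Polynomial.C * b0 a := by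
    ext1 i j
    have e1 : (Y.map derivative * (Em a).map Polynomial.C) i j =
        derivative ((Y * (Em a).map Polynomial.C) i j) := by
      rw [Matrix.mul_apply, Matrix.mul_apply, derivative_sum]
      refine Finset.sum_congr rfl fun m _ => ?_
      rw [Matrix.map_apply, Matrix.map_apply, derivative_mul, derivative_C, mul_zero, add_zero]
    have e2 : (∏ j, (X - Polynomial.C (a j))) = bp a j * (X - Polynomial.C (a j)) := by
      rw [bp, Finset.prod_erase_mul _ _ (Finset.mem_univ j)]
    rw [Matrix.smul_apply, smul_eq_mul, e1, e2]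
    calc 2 * (bp a j * (X - Polynomial.C (a j))) * derivative ((Y * (Em a).map Polynomial.C) i j)
        = bp a j * (2 * (X - Polynomial.C (a j)) *
          derivative ((Y * (Em a).map Polynomial.C) i j)) := by ring
      _ = (Y * (Em a).map Polynomial.C * b0 a) i j := by
        rw [h, Matrix.mul_apply, ← Finset.add_sum_erase _ _ (Finset.mem_univ j), b0,
          Matrix.of_apply, if_pos rfl, mul_zero, zero_add, Finset.mul_sum]
        refine Finset.sum_congr rfl fun m hm => ?_
        rw [Matrix.of_apply, if_neg (Finset.ne_of_mem_erase hm), mul_comm]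
  have h2 : q1 a • Y.map derivative = Y * b1 a := by
    have e3 : (Em a).map Polynomial.C * ((Em a).adjugate).map Polynomial.C =
        Polynomial.C (Em a).det • (1 : Matrix (Fin n) (Fin n) C[X]) := by
      rw [← Matrix.map_mul, Matrix.mul_adjugate]
      ext1 x y
      rw [Matrix.map_apply, Matrix.smul_apply, Matrix.smul_apply, smul_eq_mul, smul_eq_mul, map_mul]
      congr 1
      rw [Matrix.one_apply, Matrix.one_apply]
      split_ifs <;> simp
    calc q1 a • Y.map derivative = (2 * (∏ j, (X - Polynomial.C (a j)))) •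
          (Y.map derivative * ((Em a).map Polynomial.C * ((Em a).adjugate).map Polynomial.C)) := by
          rw [e3, Matrix.mul_smul, Matrix.mul_one, smul_smul]
          rfl
      _ = ((2 * (∏ j, (X - Polynomial.C (a j)))) •
          (Y.map derivative * (Em a).map Polynomial.C)) * ((Em a).adjugate).map Polynomial.C := by
          rw [← Matrix.mul_assoc, Matrix.smul_mul]
      _ = Y * b1 a := by
          rw [h1, b1]
          simp only [Matrix.mul_assoc]
  have := congrFun (congrFun h2 i) l
  rw [Matrix.smul_apply, smul_eq_mul, Matrix.map_apply, Matrix.mul_apply] at this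
  exact this

theorem ode2 {g : ℕ} {g' : ℕ} (a : Fin (2 * g) → C) (Y : Matrix (Fin g') (Fin (2 * g)) C[X])
    (h : ∀ i l, q1 a * derivative (Y i l) = ∑ m, Y i m * b1 a m l) (i : Fin g')
    (l : Fin (2 * g)) :
    qh a * derivative ((cst a • Y) i l) = ∑ m, (cst a • Y) i m * bh a m l := by
  classical
  rw [Matrix.smul_apply, smul_eq_mul, derivative_mul, qh]
  simp only [bh, Matrix.of_apply, mul_add, Finset.sum_add_distrib, mul_ite, mul_zero,
    Finset.sum_ite_eq', Finset.mem_univ, if_true]
  rw [Matrix.smul_apply, smul_eq_mul]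
  have : ∑ x, (cst a • Y) i x * (cst a * b1 a x l) = cst a * cst a * (q1 a * derivative (Y i l)) := by
    rw [h, Finset.mul_sum]
    refine Finset.sum_congr rfl fun m _ => ?_
    rw [Matrix.smul_apply, smul_eq_mul]
    ring
  rw [this]
  ring

end ode

section maps

variable {A K : Type} [CommRing A] [CommRing K] (φ : A →+* K) {n : ℕ}

theorem map_bp (a : Fin n → A) (j : Fin n) : (bp a j).map φ = bp (fun j => φ (a j)) j := by
  rw [bp, Polynomial.map_prod, bp]
  simp

theorem map_Em (a : Fin n → A) : (Em a).map φ = Em fun j => φ (a j) := by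
  ext1 i j
  rw [Matrix.map_apply, Em, Matrix.of_apply, Em, Matrix.of_apply, ← map_bp, coeff_map]

theorem map_fmx (a : Fin n → A) : (fmx a).map (mapRingHom φ) = fmx fun j => φ (a j) := by
  rw [fmx, Polynomial.map_mul, Polynomial.map_prod, fmx]
  simp

theorem map_Q2 (a : Fin n → A) (l m : Fin n) :
    (Q2 a l m).map φ = Q2 (fun j => φ (a j)) l m := by
  rw [Q2, Matrix.of_apply, Q2, Matrix.of_apply, Polynomial.map_mul, Polynomial.map_sub,
    Polynomial.map_natCast, Polynomial.map_natCast, ← map_fmx, coeff_map]
  rfl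

theorem map_cst {g : ℕ} (a : Fin (2 * g) → A) : (cst a).map φ = cst fun j => φ (a j) := by
  have e : (((Q2 a).submatrix lo hi : Matrix (Fin g) (Fin g) A[X])).map (mapRingHom φ) =
      (Q2 fun j => φ (a j)).submatrix lo hi := by
    ext1 i j
    rw [Matrix.map_apply, Matrix.submatrix_apply, Matrix.submatrix_apply, ← map_Q2]
    rfl
  rw [cst, Polynomial.map_mul, cst, ← e]
  congr 1
  · exact Polynomial.map_ofNat φ 2
  · exact RingHom.map_det (mapRingHom φ) _

theorem map_b0 (a : Fin n → A) (l m : Fin n) : (b0 a l m).map φ = b0 (fun j => φ (a j)) l m := by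
  rw [b0, Matrix.of_apply, b0, Matrix.of_apply]
  split_ifs
  · rw [Polynomial.map_zero]
  · rw [map_bp]

theorem map_b1 (a : Fin n → A) (l m : Fin n) : (b1 a l m).map φ = b1 (fun j => φ (a j)) l m := by
  have e1 : ((Em a).map Polynomial.C).map (mapRingHom φ) =
      (Em fun j => φ (a j)).map Polynomial.C := by
    ext1 i j
    rw [Matrix.map_apply, Matrix.map_apply, coe_mapRingHom, Polynomial.map_C, ← map_Em,
      Matrix.map_apply, Matrix.map_apply]
  have e2 : (((Em a).adjugate).map Polynomial.C).map (mapRingHom φ) =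
      ((Em fun j => φ (a j)).adjugate).map Polynomial.C := by
    have : (Em fun j => φ (a j)).adjugate = ((Em a).adjugate).map φ := by
      rw [← map_Em]
      exact (RingHom.map_adjugate φ (Em a)).symm
    rw [this]
    ext1 i j
    rw [Matrix.map_apply, Matrix.map_apply, coe_mapRingHom, Polynomial.map_C,
      Matrix.map_apply, Matrix.map_apply]
  have e3 : (b0 a).map (mapRingHom φ) = b0 fun j => φ (a j) := by
    ext1 i j
    rw [Matrix.map_apply, coe_mapRingHom, map_b0]
  have e4 : (b1 a).map (mapRingHom φ) = b1 fun j => φ (a j) := by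
    rw [b1, Matrix.map_mul, Matrix.map_mul, e1, e2, e3, b1]
  have := congrFun (congrFun e4 l) m
  rw [Matrix.map_apply] at this
  exact this

theorem map_q1 (a : Fin n → A) : (q1 a).map φ = q1 fun j => φ (a j) := by
  have : (Em fun j => φ (a j)).det = φ (Em a).det := by
    rw [← map_Em]
    exact (RingHom.map_det φ (Em a)).symm
  rw [q1, q1, this, Polynomial.map_mul, Polynomial.map_mul, Polynomial.map_prod]
  simp

theorem map_qh {g : ℕ} (a : Fin (2 * g) → A) : (qh a).map φ = qh fun j => φ (a j) := by
  rw [qh, Polynomial.map_mul, map_cst, map_q1, qh]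

theorem map_bh {g : ℕ} (a : Fin (2 * g) → A) (l m : Fin (2 * g)) :
    (bh a l m).map φ = bh (fun j => φ (a j)) l m := by
  rw [bh, Matrix.of_apply, bh, Matrix.of_apply, Polynomial.map_add, Polynomial.map_mul, map_b1,
    map_cst]
  split_ifs
  · rw [Polynomial.map_mul, ← derivative_map, map_cst, map_q1]
  · rw [Polynomial.map_zero]

end maps

section fields

/-- Over a field containing `C[X]`. -/
theorem Q2_field {C : Type} [CommRing C] {F : Type} [Field F] (h2 : (2 : F) ≠ 0) {n : ℕ}
    (a : Fin n → C) (ψ : C[X] →+* F) (l m : Fin n) :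
    ψ (Q2 a l m) = 2 * Qx (ψ X) (fun j => ψ (Polynomial.C (a j))) l m := by
  have e : (fmx a).map ψ = hp (ψ X) fun j => ψ (Polynomial.C (a j)) := by
    rw [fmx, Polynomial.map_mul, Polynomial.map_prod, hp]
    simp
  rw [Q2, Matrix.of_apply, Qx, Matrix.of_apply, map_mul, map_sub, map_natCast, map_natCast, ← e,
    coeff_map]
  field_simp

theorem cst_field {C : Type} [CommRing C] {F : Type} [Field F] (h2 : (2 : F) ≠ 0) {g : ℕ}
    (a : Fin (2 * g) → C) (ψ : C[X] →+* F)
    (hd : ((Qx (ψ X) (fun j => ψ (Polynomial.C (a j)))).submatrix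
      (lo : Fin g → Fin (2 * g)) hi).det ≠ 0) : ψ (cst a) ≠ 0 := by
  have e : (((Q2 a).submatrix lo hi : Matrix (Fin g) (Fin g) C[X])).map ψ =
      (2 : F) • (Qx (ψ X) (fun j => ψ (Polynomial.C (a j)))).submatrix
      (lo : Fin g → Fin (2 * g)) hi := by
    ext1 i j
    rw [Matrix.map_apply, Matrix.submatrix_apply, Matrix.smul_apply, Matrix.submatrix_apply,
      Q2_field h2, smul_eq_mul]
  rw [cst, map_mul, map_ofNat, RingHom.map_det]
  refine mul_ne_zero h2 ?_
  have e' : ψ.mapMatrix ((Q2 a).submatrix lo hi : Matrix (Fin g) (Fin g) C[X]) =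
      (2 : F) • (Qx (ψ X) (fun j => ψ (Polynomial.C (a j)))).submatrix
      (lo : Fin g → Fin (2 * g)) hi := e
  rw [e', Matrix.det_smul]
  exact mul_ne_zero (pow_ne_zero _ h2) hd

theorem qh_ne (hE : S_EDet) (hQ : S_QxDet) {A : Type} [CommRing A] [IsDomain A] [CharZero A]
    {g : ℕ} (hg : 1 ≤ g) (a : Fin (2 * g) → A) (ha : Function.Injective a) :
    cst a ≠ 0 ∧ qh a ≠ 0 := by
  have hc : cst a ≠ 0 := by
    let F := FractionRing A[X]
    let ψ : A[X] →+* F := algebraMap A[X] F
    have hinj : Function.Injective ψ := IsFractionRing.injective A[X] F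
    have : CharZero F := charZero_of_injective_algebraMap hinj
    intro h0
    refine cst_field (F := F) two_ne_zero a ψ ?_ (by rw [h0, map_zero])
    exact (hQ F g (fun m hm _ => by
      rw [Nat.cast_ne_zero]; omega) (ψ X) (fun j => ψ (Polynomial.C (a j))) hg).2.1
  refine ⟨hc, mul_ne_zero hc ?_⟩
  have hd : (Em a).det ≠ 0 := by
    let F := FractionRing A
    let ψ : A →+* F := algebraMap A F
    have hinj : Function.Injective ψ := IsFractionRing.injective A F
    intro h0
    refine hE F (2 * g) (fun j => ψ (a j)) (hinj.comp ha) ?_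
    rw [← map_Em]
    have := RingHom.map_det ψ (Em a)
    rw [h0, map_zero] at this
    exact this.symm
  rw [q1]
  refine mul_ne_zero (mul_ne_zero two_ne_zero ?_) (by rwa [Ne, Polynomial.C_eq_zero])
  rw [Finset.prod_ne_zero_iff]
  exact fun j _ => X_sub_C_ne_zero _

end fields

end Pool.Agent.Helper12.BM
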