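import Pool.Agent.Helper12.BM.FewB

/-!
# The monomials in the entries of a frame
-/

set_option autoImplicit false

open Polynomial Matrix Finset

namespace Pool.Agent.Helper12.BM

open Pool.Agent.Helper62.BM
open Pool.Agent.Helper36.BM (mon shift degree_shift mon_ode aeval_scaled)

/-- The exponents of degree at most `d`. -/
abbrev Jd (g n d : ℕ) : Type := {m : Fin g × Fin n →₀ ℕ // m.degree ≤ d}

instance (g n d : ℕ) : Finite (Jd g n d) := by
  have := Finsupp.finite_of_degree_le (σ := Fin g × Fin n) d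
  exact this.to_subtype

noncomputable instance (g n d : ℕ) : Fintype (Jd g n d) := Fintype.ofFinite _

section defs

variable {C : Type} [CommRing C] {g n d : ℕ}

open Classical in
/-- The matrix of the differential equations of the monomials. -/
noncomputable def Mm (β : Matrix (Fin n) (Fin n) C[X]) (m' m : Jd g n d) : C[X] :=
  ∑ s, ∑ l, if m.1 s ≠ 0 ∧ shift m.1 s l = m'.1 then ((m.1 s : ℕ) : C[X]) * β l s.2 else 0

theorem mon_ode' (Y : Matrix (Fin g) (Fin n) C[X]) (q : C[X]) (β : Matrix (Fin n) (Fin n) C[X])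
    (h : ∀ i l, q * derivative (Y i l) = ∑ m, Y i m * β m l) (m : Jd g n d) :
    q * derivative (mon Y m.1) = ∑ m' : Jd g n d, Mm β m' m * mon Y m'.1 := by
  classical
  rw [mon_ode Y q β h]
  simp only [Mm, Finset.sum_mul]
  conv_rhs => rw [Finset.sum_comm]
  refine Finset.sum_congr rfl fun s _ => ?_
  conv_rhs => rw [Finset.sum_comm]
  refine Finset.sum_congr rfl fun l _ => ?_
  by_cases hs : m.1 s = 0
  · rw [hs, Nat.cast_zero, zero_mul, zero_mul]
    symm
    apply Finset.sum_eq_zero
    intro m' _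
    rw [if_neg (by simp), zero_mul]
  · have hd : (shift m.1 s l).degree ≤ d := by
      rw [degree_shift hs]; exact m.2
    rw [Finset.sum_eq_single (⟨shift m.1 s l, hd⟩ : Jd g n d)]
    · rw [if_pos ⟨hs, rfl⟩]
    · intro m' _ hm'
      rw [if_neg, zero_mul]
      rintro ⟨-, h2⟩
      exact hm' (Subtype.ext h2.symm)
    · intro h0; exact absurd (Finset.mem_univ _) h0

theorem map_Mm {K : Type} [CommRing K] (φ : C →+* K) (β : Matrix (Fin n) (Fin n) C[X])
    (β' : Matrix (Fin n) (Fin n) K[X]) (h : ∀ l m, (β l m).map φ = β' l m) (m' m : Jd g n d) :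
    (Mm β m' m).map φ = Mm β' m' m := by
  classical
  rw [Mm, Mm, Polynomial.map_sum]
  refine Finset.sum_congr rfl fun s _ => ?_
  rw [Polynomial.map_sum]
  refine Finset.sum_congr rfl fun l _ => ?_
  split_ifs
  · rw [Polynomial.map_mul, Polynomial.map_natCast, h]
  · rw [Polynomial.map_zero]

theorem natDegree_mon (Y : Matrix (Fin g) (Fin n) C[X]) (D : ℕ) (h : ∀ i l, (Y i l).natDegree ≤ D)
    (m : Fin g × Fin n →₀ ℕ) : (mon Y m).natDegree ≤ m.degree * D := by
  rw [mon]
  refine (natDegree_prod_le _ _).trans ?_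
  rw [Finsupp.degree_eq_sum, Finset.sum_mul]
  refine Finset.sum_le_sum fun s _ => ?_
  exact natDegree_pow_le.trans (Nat.mul_le_mul_left _ (h _ _))

end defs

section zero

variable {A K : Type} [CommRing A] [CommRing K] (φ : A →+* K) {g d : ℕ}

/-- The coefficients of `c ^ d G (Y₁)` in terms of the monomials in the entries of `c Y`. -/
noncomputable def Fc (c : A[X]) (G : MvPolynomial (Fin g × Fin g) A[X]) (m : Jd g (2 * g) d) :
    A[X] :=
  (MvPolynomial.rename (Prod.map id (lo : Fin g → Fin (2 * g))) G).coeff m.1 *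
    c ^ (d - m.1.degree)

theorem sum_Fc (c : A[X]) (G : MvPolynomial (Fin g × Fin g) A[X]) (hG : G.totalDegree ≤ d)
    (Y : Matrix (Fin g) (Fin (2 * g)) K[X]) :
    (c.map φ) ^ d * MvPolynomial.eval₂ (mapRingHom φ) (fun s : Fin g × Fin g => Y s.1 (lo s.2)) G =
      ∑ m : Jd g (2 * g) d, (Fc c G m).map φ * mon ((c.map φ) • Y) m.1 := by
  classical
  set G' := MvPolynomial.rename (Prod.map id (lo : Fin g → Fin (2 * g))) G with hG'
  have e1 : MvPolynomial.eval₂ (mapRingHom φ) (fun s : Fin g × Fin g => Y s.1 (lo s.2)) G =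
      MvPolynomial.aeval (fun s : Fin g × Fin (2 * g) => Y s.1 s.2)
        (MvPolynomial.map (mapRingHom φ) G') := by
    rw [MvPolynomial.aeval_eq_eval₂Hom, MvPolynomial.coe_eval₂Hom, MvPolynomial.eval₂_map, hG',
      MvPolynomial.eval₂_rename]
    rfl
  have hd : (MvPolynomial.map (mapRingHom φ) G').totalDegree ≤ d := by
    have h1 := (MvPolynomial.totalDegree_rename_le (Prod.map id (lo : Fin g → Fin (2 * g))) G).trans
      hG
    refine le_trans ?_ h1
    rw [MvPolynomial.totalDegree, MvPolynomial.totalDegree]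
    exact Finset.sup_mono (MvPolynomial.support_map_subset _ _)
  rw [e1, aeval_scaled _ _ _ hd]
  have hsub : (MvPolynomial.map (mapRingHom φ) G').support ⊆
      (Finsupp.finite_of_degree_le (σ := Fin g × Fin (2 * g)) d).toFinset := by
    intro m hm
    rw [Set.Finite.mem_toFinset, Set.mem_ofPred_eq]
    refine le_trans ?_ ((MvPolynomial.le_totalDegree hm).trans hd)
    exact le_of_eq rfl
  rw [Finset.sum_subset hsub]
  · rw [Finset.sum_subtype (p := fun m : Fin g × Fin (2 * g) →₀ ℕ => m.degree ≤ d)]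
    · refine Finset.sum_congr rfl fun m _ => ?_
      rw [MvPolynomial.coeff_map, Fc, Polynomial.map_mul, Polynomial.map_pow]
      rfl
    · intro m
      rw [Set.Finite.mem_toFinset, Set.mem_ofPred_eq]
  · intro m _ hm
    rw [MvPolynomial.notMem_support_iff] at hm
    rw [hm, zero_mul, zero_mul]

/-- The coefficients of the differential equation of `c ^ d G (Y₁)`. -/
noncomputable def M0 (c q : A[X]) (β : Matrix (Fin (2 * g)) (Fin (2 * g)) A[X])
    (G : MvPolynomial (Fin g × Fin g) A[X]) (m' : Jd g (2 * g) d) : A[X] :=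
  q * derivative (Fc c G m') + ∑ m : Jd g (2 * g) d, Fc c G m * Mm β m' m

theorem ode_zero (c q : A[X]) (β : Matrix (Fin (2 * g)) (Fin (2 * g)) A[X])
    (β' : Matrix (Fin (2 * g)) (Fin (2 * g)) K[X]) (hβ : ∀ l m, (β l m).map φ = β' l m)
    (G : MvPolynomial (Fin g × Fin g) A[X]) (Y : Matrix (Fin g) (Fin (2 * g)) K[X])
    (h : ∀ i l, q.map φ * derivative (Y i l) = ∑ m, Y i m * β' m l) :
    q.map φ * derivative (∑ m : Jd g (2 * g) d, (Fc c G m).map φ * mon Y m.1) =
      ∑ m' : Jd g (2 * g) d, (M0 c q β G m').map φ * mon Y m'.1 := by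
  rw [derivative_sum, Finset.mul_sum]
  have e1 : ∀ m : Jd g (2 * g) d, q.map φ * derivative ((Fc c G m).map φ * mon Y m.1) =
      q.map φ * (derivative (Fc c G m)).map φ * mon Y m.1 +
        ∑ m' : Jd g (2 * g) d, (Fc c G m).map φ * (Mm β' m' m * mon Y m'.1) := by
    intro m
    rw [derivative_mul, derivative_map, mul_add, ← Finset.mul_sum, ← mon_ode' Y _ β' h]
    ring
  rw [Finset.sum_congr rfl fun m _ => e1 m, Finset.sum_add_distrib, Finset.sum_comm,
    ← Finset.sum_add_distrib]
  refine Finset.sum_congr rfl fun m' _ => ?_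
  rw [M0, Polynomial.map_add, Polynomial.map_mul, Polynomial.map_sum, add_mul, Finset.sum_mul]
  congr 1
  refine Finset.sum_congr rfl fun m _ => ?_
  rw [Polynomial.map_mul, map_Mm φ β β' hβ]
  ring

end zero

end Pool.Agent.Helper12.BM
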