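import Pool.Agent.Helper12.BM.FewC

/-!
# The soft Stepanov method for polynomials in the entries of the Hasse-Witt matrix
-/

set_option autoImplicit false

open Polynomial Matrix Finset

namespace Pool.Agent.Helper12.BM

open Pool.Agent.Helper62.BM
open Pool.Agent.Helper36.BM (mon shift degree_shift mon_ode aeval_scaled)

theorem ι_inj (k : Type) [Field k] : Function.Injective (ι k) :=
  IsFractionRing.injective k[X] (KX k)

theorem map_Em_ι {k : Type} [Field k] {n : ℕ} (a : Fin n → k) :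
    ((Em a).map Polynomial.C).map (ι k) = Em (aX a) := by
  exact map_Em ((ι k).comp Polynomial.C) a

/-- The image of the frame in the field of rational functions is horizontal. -/
theorem horK (hHWb : S_HWb) {k : Type} [Field k] (p : ℕ) [Fact p.Prime] [CharP k p] (hp2 : p ≠ 2)
    (g n : ℕ) (a : Fin n → k) (D : Der (KX k)) (hD : IsDer D) (i : Fin g) (j : Fin n) :
    D (((YX p g a).map (ι k) * Em (aX a)) i j) =
      (((YX p g a).map (ι k) * Em (aX a)) * Bm (tX k) (aX a)) i j := by
  classical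
  have h2 : (2 : KX k) ≠ 0 := by
    intro h0
    have h1 : ((2 : ℕ) : KX k) = 0 := by exact_mod_cast h0
    rw [CharP.cast_eq_zero_iff (KX k) p] at h1
    have := (Nat.prime_dvd_prime_iff_eq (Fact.out : p.Prime) Nat.prime_two).mp h1
    exact hp2 this
  have e1 : (YX p g a).map (ι k) * Em (aX a) =
      (YX p g a * (Em a).map Polynomial.C).map (ι k) := by
    rw [Matrix.map_mul, map_Em_ι]
  rw [e1, Matrix.map_apply, hD]
  conv_rhs => rw [Matrix.mul_apply]
  have h := congrArg (ι k) (hHWb k p hp2 g n a i j)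
  rw [map_mul, map_mul, map_sum, map_ofNat, map_sub] at h
  have hne : (2 : KX k) * (tX k - aX a j) ≠ 0 := by
    refine mul_ne_zero h2 ?_
    rw [← map_sub]
    intro h0
    have := ι_inj k (h0.trans (map_zero (ι k)).symm)
    exact X_sub_C_ne_zero _ this
  rw [← Finset.add_sum_erase _ _ (Finset.mem_univ j), Bm, Matrix.of_apply, if_pos rfl, mul_zero,
    zero_add]
  apply mul_left_cancel₀ hne
  rw [Finset.mul_sum]
  refine h.trans ?_
  refine Finset.sum_congr rfl fun m hm => ?_
  rw [Matrix.of_apply, if_neg (Finset.ne_of_mem_erase hm), Matrix.map_apply, mul_left_comm,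
    mul_inv_cancel₀ hne, mul_one]

theorem isoK (hHWiso : S_HWiso) {k : Type} [Field k] (p : ℕ) [Fact p.Prime] [CharP k p]
    (hp2 : p ≠ 2) (h2 : (2 : KX k) ≠ 0) (g : ℕ) (a : Fin (2 * g) → k) :
    (YX p g a).map (ι k) * Qx (tX k) (aX a) * ((YX p g a).map (ι k))ᵀ = 0 := by
  ext1 i i'
  have h := congrArg (ι k) (hHWiso k p hp2 g (2 * g) a i i' le_rfl)
  rw [map_zero, map_sum] at h
  rw [Matrix.zero_apply, Matrix.mul_apply]
  apply mul_left_cancel₀ h2
  rw [mul_zero, ← h, Finset.mul_sum]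
  simp only [map_sum]
  rw [Finset.sum_comm]
  refine Finset.sum_congr rfl fun m _ => ?_
  rw [Matrix.mul_apply, Matrix.transpose_apply, Finset.sum_mul, Finset.mul_sum]
  refine Finset.sum_congr rfl fun l _ => ?_
  have e : ι k ((((l : ℕ) : k[X]) - ((m : ℕ) : k[X])) * (fmx a).coeff ((l : ℕ) + m + 2)) =
      2 * Qx (tX k) (aX a) l m := Q2_field h2 a (ι k) l m
  rw [map_mul, map_mul, e, Matrix.map_apply, Matrix.map_apply]
  ring

theorem two_neK {k : Type} [Field k] (p : ℕ) [Fact p.Prime] [CharP k p] (m : ℕ) (h1 : 1 ≤ m)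
    (hm : m < p) : ((m : ℕ) : KX k) ≠ 0 := by
  intro h0
  rw [CharP.cast_eq_zero_iff (KX k) p] at h0
  have := Nat.le_of_dvd h1 h0
  omega

theorem fewG (hStep : S_Step) (hNV : S_NV2) (hFrac : S_Frac) (hHWb : S_HWb) (hHWdeg : S_HWdeg)
    (hHWiso : S_HWiso) (hE : S_EDet) (hQx : S_QxDet) (hdet : S_HWdet) : S_FewG := by
  intro g hg A _ _ _ a ha G hG ε hε
  classical
  obtain ⟨hc0, hq0⟩ := qh_ne hE hQx hg a ha
  set d := G.totalDegree with hd
  set c := cst a with hc
  have hη₀ : (MvPolynomial.C c : MvPolynomial (Vars g) A[X]) ^ d *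
      MvPolynomial.rename (Sum.inl : Fin g × Fin g → Vars g) G ≠ 0 := by
    refine mul_ne_zero (pow_ne_zero _ ?_) ?_
    · rwa [Ne, MvPolynomial.C_eq_zero]
    · intro h0
      apply hG
      apply MvPolynomial.rename_injective _ Sum.inl_injective
      rw [h0, map_zero]
  obtain ⟨e, A₀, β, p₁, a₁, ha₁, hst⟩ := stepJ hStep A (Vars g) (Jd g (2 * g) d)
    ((MvPolynomial.C c) ^ d * MvPolynomial.rename (Sum.inl : Fin g × Fin g → Vars g) G)
    (fun m => ∏ s, (Rm a s.1 s.2) ^ m.1 s) hη₀ (qh a) (M0 c (qh a) (bh a) G) (Mm (bh a)) hq0 ε hε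
    ((univ.sup fun m : Jd g (2 * g) d => (Fc c G m).natDegree) + d * (c.natDegree + 1))
  set Dm := univ.sup fun m : Jd g (2 * g) d => (Fc c G m).natDegree with hDm
  obtain ⟨p₂, hnv⟩ := hNV g hg e A₀ β
  refine ⟨p₁ + p₂ + 2 * g + 3, a₁ * ∏ i, ∏ j ∈ univ.erase i, (a i - a j), ?_, ?_⟩
  · refine mul_ne_zero ha₁ ?_
    rw [Finset.prod_ne_zero_iff]
    intro i _
    rw [Finset.prod_ne_zero_iff]
    intro j hj h0
    exact (Finset.ne_of_mem_erase hj) (ha (sub_eq_zero.mp h0)).symm
  intro p _ k _ _ φ hp hφ T hT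
  rw [map_mul] at hφ
  have hφ₁ := left_ne_zero_of_mul hφ
  have hφ₂ := right_ne_zero_of_mul hφ
  have ha' : Function.Injective fun j => φ (a j) := by
    intro i j hij
    by_contra hne
    apply hφ₂
    rw [map_prod]
    refine Finset.prod_eq_zero (Finset.mem_univ i) ?_
    rw [map_prod]
    refine Finset.prod_eq_zero (Finset.mem_erase.mpr ⟨Ne.symm hne, Finset.mem_univ j⟩) ?_
    rw [map_sub, sub_eq_zero]
    exact hij
  have hp2 : p ≠ 2 := by omega
  have h2 : (2 : KX k) ≠ 0 := by
    have := two_neK (k := k) p 2 (by norm_num) (by omega)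
    exact_mod_cast this
  have hm : ∀ m : ℕ, 1 ≤ m → m ≤ 2 * g → (m : KX k) ≠ 0 := fun m h1 h3 =>
    two_neK (k := k) p m h1 (by omega)
  obtain ⟨-, -, hQ22, hQa⟩ := hQx (KX k) g hm (tX k) (aX fun j => φ (a j)) hg
  obtain ⟨D, hD, -⟩ := hFrac k
  have hYdet : (((YX p g fun j => φ (a j)).map (ι k)).submatrix id (lo : Fin g → _)).det ≠ 0 := by
    have h1 := hdet k p (by omega) g hg (by omega) (fun j => φ (a j)) ha'
    have h3 : (((YX p g fun j => φ (a j)).map (ι k)).submatrix id (lo : Fin g → _)).det =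
        ι k (((YX p g fun j => φ (a j)).submatrix id lo).det) := by
      rw [RingHom.map_det]
      rfl
    rw [h3]
    intro h0
    exact h1 (ι_inj k (h0.trans (map_zero (ι k)).symm))
  have hNVp := hnv p k (by omega) (fun j => φ (a j)) ha' D hD
    ((YX p g fun j => φ (a j)).map (ι k)) (horK hHWb p hp2 g (2 * g) (fun j => φ (a j)) D hD) hYdet
  have hI := isoK hHWiso p hp2 h2 g (fun j => φ (a j))
  have hode : ∀ i l, (qh a).map φ * derivative (((c.map φ) • YX p g fun j => φ (a j)) i l) =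
      ∑ m, ((c.map φ) • YX p g fun j => φ (a j)) i m * bh (fun j => φ (a j)) m l := by
    intro i l
    rw [hc, map_cst, map_qh]
    exact ode2 _ _ (ode1 _ _ (hHWb k p hp2 g (2 * g) fun j => φ (a j))) i l
  have hZ₀ := sum_Fc (d := d) φ c G le_rfl (YX p g fun j => φ (a j))
  have hdY : ∀ i l, (((c.map φ) • YX p g fun j => φ (a j)) i l).natDegree ≤
      (c.natDegree + 1) * p := by
    intro i l
    rw [Matrix.smul_apply, smul_eq_mul]
    refine natDegree_mul_le.trans ?_
    have h1 := hHWdeg k p g (2 * g) (fun j => φ (a j)) i l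
    have h3 : (c.map φ).natDegree ≤ c.natDegree := natDegree_map_le
    have h4 : c.natDegree ≤ c.natDegree * p := Nat.le_mul_of_pos_right _ (by omega)
    have h5 : (p - 1) / 2 ≤ p := (Nat.div_le_self _ _).trans (Nat.sub_le _ _)
    rw [add_mul, one_mul]
    omega
  have hdm : ∀ m : Jd g (2 * g) d,
      (mon ((c.map φ) • YX p g fun j => φ (a j)) m.1).natDegree ≤
        d * (c.natDegree + 1) * p := by
    intro m
    refine (natDegree_mon _ _ hdY m.1).trans ?_
    rw [mul_assoc]
    exact Nat.mul_le_mul_right _ m.2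
  refine hst p k φ (by omega) hφ₁ ((c.map φ) ^ d * MvPolynomial.eval₂ (mapRingHom φ)
    (fun s : Fin g × Fin g => (YX p g fun j => φ (a j)) s.1 (lo s.2)) G)
    (fun m => mon ((c.map φ) • YX p g fun j => φ (a j)) m.1)
    (frv (Qx (tX k) (aX fun j => φ (a j))) ((YX p g fun j => φ (a j)).map (ι k)))
    ?_ ?_ ?_ ?_ ?_ ?_ hNVp T ?_
  · rw [map_mul, map_pow, MvPolynomial.eval₂_mul, MvPolynomial.eval₂_pow, MvPolynomial.eval₂_C,
      MvPolynomial.eval₂_rename, MvPolynomial.eval₂_comp_left]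
    rfl
  · intro m
    have h1 : ∀ s : Fin g × Fin (2 * g), MvPolynomial.eval₂ ((ι k).comp (mapRingHom φ))
        (frv (Qx (tX k) (aX fun j => φ (a j))) ((YX p g fun j => φ (a j)).map (ι k)))
        (Rm a s.1 s.2) = ι k (((c.map φ) • YX p g fun j => φ (a j)) s.1 s.2) := by
      intro s
      have h3 := eval_Rm ((ι k).comp (mapRingHom φ)) a h2 (Qx (tX k) (aX fun j => φ (a j)))
        ((YX p g fun j => φ (a j)).map (ι k)) hQa hQ22 hYdet hI ?_ s.1 s.2
      · rw [h3, Matrix.smul_apply, smul_eq_mul, map_mul]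
        rfl
      · intro l m
        have h4 := Q2_field h2 a ((ι k).comp (mapRingHom φ)) l m
        have h5 : ((ι k).comp (mapRingHom φ)) X = tX k := by
          rw [RingHom.comp_apply, coe_mapRingHom, Polynomial.map_X]
        have h6 : (fun j => ((ι k).comp (mapRingHom φ)) (Polynomial.C (a j))) =
            aX fun j => φ (a j) := by
          funext j
          rw [RingHom.comp_apply, coe_mapRingHom, Polynomial.map_C]
        rw [h5, h6] at h4
        exact h4
    rw [mon, map_prod, ← MvPolynomial.coe_eval₂Hom, map_prod]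
    refine Finset.prod_congr rfl fun s _ => ?_
    rw [map_pow, map_pow, MvPolynomial.coe_eval₂Hom, h1]
  · rw [hZ₀]
    exact ode_zero φ c (qh a) (bh a) (bh fun j => φ (a j)) (map_bh φ a) G _ hode
  · intro m
    rw [mon_ode' _ _ _ hode m]
    refine Finset.sum_congr rfl fun m' _ => ?_
    rw [map_Mm φ (bh a) (bh fun j => φ (a j)) (map_bh φ a)]
  · rw [hZ₀, add_mul]
    refine natDegree_sum_le_of_forall_le _ _ fun m _ => ?_
    refine natDegree_mul_le.trans (Nat.add_le_add ?_ (hdm m))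
    have h1 : ((Fc c G m).map φ).natDegree ≤ Dm := by
      refine natDegree_map_le.trans ?_
      exact Finset.le_sup (f := fun m : Jd g (2 * g) d => (Fc c G m).natDegree) (Finset.mem_univ m)
    exact h1.trans (Nat.le_mul_of_pos_right _ (by omega))
  · intro m
    refine (hdm m).trans ?_
    rw [add_mul]
    exact Nat.le_add_left _ _
  · intro t ht
    obtain ⟨h1, h3⟩ := hT t ht
    refine ⟨h1, ?_⟩
    rw [eval_mul]
    have h4 : eval t (MvPolynomial.eval₂ (mapRingHom φ)
        (fun s : Fin g × Fin g => (YX p g fun j => φ (a j)) s.1 (lo s.2)) G) = 0 := by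
      rw [← coe_evalRingHom, MvPolynomial.eval₂_comp_left]
      exact h3
    rw [h4, mul_zero]

end Pool.Agent.Helper12.BM
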