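import Pool.Agent.Helper12.BM.Leib

/-!
# The derivation `d / dX` on the field of rational functions (package P1)

The ring homomorphism `q ↦ q + q' ε` from the polynomials to the dual numbers over the rational
functions sends nonzero polynomials to units, so it extends to the rational functions.
-/

set_option autoImplicit false

open Polynomial Finset

namespace Pool.Agent.Helper12.BM

open Pool.Agent.Helper62.BM

/-- `D ^ p` is a derivation -/
theorem der_pow {F : Type} [Field F] (p : ℕ) [Fact p.Prime] [CharP F p] (D : Derivation ℤ F F)
    (x y : F) : (⇑D)^[p] (x * y) = (⇑D)^[p] x * y + x * (⇑D)^[p] y :=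
  leib_p p Fact.out (fun w : F => char_nsmul (F := F) p w) (⇑D) (⇑D)
    (⇑D) (map_zero _) (map_add _) (fun x y => x * y) (fun x y => by
      rw [Derivation.leibniz, smul_eq_mul, smul_eq_mul]
      ring) x y

/-- a derivation of a field from an additive map with the product rule -/
def mkDer {F : Type} [Field F] (f : F →+ F) (hf : ∀ a b, f (a * b) = a * f b + b * f a) :
    Derivation ℤ F F where
  toFun := f
  map_add' := map_add f
  map_smul' n x := by
    rw [RingHom.id_apply]
    exact map_zsmul f n x
  map_one_eq_zero' := by
    change f 1 = 0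
    have h := hf 1 1
    rw [one_mul, one_mul] at h
    have h2 : f 1 + f 1 = f 1 + 0 := by rw [add_zero]; exact h.symm
    exact add_left_cancel h2
  leibniz' a b := hf a b

theorem mkDer_apply {F : Type} [Field F] (f : F →+ F)
    (hf : ∀ a b, f (a * b) = a * f b + b * f a) (x : F) : mkDer f hf x = f x := rfl

variable (C : Type) [Field C]

/-- `q ↦ q + q' ε` -/
noncomputable def toDual : C[X] →+* TrivSqZeroExt (KX C) (KX C) where
  toFun q := (ι C q, ι C (derivative q))
  map_one' := by
    apply TrivSqZeroExt.ext
    · change ι C 1 = 1
      rw [map_one]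
    · change ι C (derivative 1) = 0
      rw [derivative_one, map_zero]
  map_zero' := by
    apply TrivSqZeroExt.ext
    · change ι C 0 = 0
      rw [map_zero]
    · change ι C (derivative 0) = 0
      rw [derivative_zero, map_zero]
  map_add' x y := by
    apply TrivSqZeroExt.ext
    · change ι C (x + y) = ι C x + ι C y
      rw [map_add]
    · change ι C (derivative (x + y)) = ι C (derivative x) + ι C (derivative y)
      rw [derivative_add, map_add]
  map_mul' x y := by
    apply TrivSqZeroExt.ext
    · change ι C (x * y) = ι C x * ι C y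
      rw [map_mul]
    · change ι C (derivative (x * y)) = ι C x • ι C (derivative y) +
        MulOpposite.op (ι C y) • ι C (derivative x)
      rw [derivative_mul, map_add, map_mul, map_mul, smul_eq_mul, op_smul_eq_mul]
      ring

theorem toDual_fst (q : C[X]) : (toDual C q).fst = ι C q := rfl

theorem toDual_snd (q : C[X]) : (toDual C q).snd = ι C (derivative q) := rfl

theorem toDual_unit (y : nonZeroDivisors C[X]) : IsUnit (toDual C y) := by
  rw [TrivSqZeroExt.isUnit_iff_isUnit_fst, toDual_fst]
  exact (IsFractionRing.to_map_ne_zero_of_mem_nonZeroDivisors y.2).isUnit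

/-- the extension to the rational functions -/
noncomputable def toDualK : KX C →+* TrivSqZeroExt (KX C) (KX C) :=
  IsLocalization.lift (toDual_unit C)

theorem toDualK_ι (q : C[X]) : toDualK C (ι C q) = toDual C q :=
  IsLocalization.lift_eq _ _

theorem toDualK_fst (x : KX C) : (toDualK C x).fst = x := by
  have h : ((TrivSqZeroExt.fstHom (KX C) (KX C) (KX C)).toRingHom.comp (toDualK C)) =
      RingHom.id (KX C) := by
    apply IsLocalization.ringHom_ext (nonZeroDivisors C[X])
    ext q
    · change (toDualK C (ι C _)).fst = _
      rw [toDualK_ι, toDual_fst]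
      rfl
    · change (toDualK C (ι C _)).fst = _
      rw [toDualK_ι, toDual_fst]
      rfl
  exact RingHom.congr_fun h x

/-- the derivation, as an additive map -/
noncomputable def derA : KX C →+ KX C where
  toFun x := (toDualK C x).snd
  map_zero' := by rw [map_zero]; rfl
  map_add' x y := by rw [map_add]; rfl

theorem derA_mul (a b : KX C) : derA C (a * b) = a * derA C b + b * derA C a := by
  change (toDualK C (a * b)).snd = a * (toDualK C b).snd + b * (toDualK C a).snd
  rw [map_mul, TrivSqZeroExt.snd_mul, toDualK_fst, toDualK_fst, op_smul_eq_mul,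
    smul_eq_mul, mul_comm (toDualK C a).snd]

/-- the derivation -/
noncomputable def derK : Der (KX C) := mkDer (derA C) (derA_mul C)

theorem derK_ι (q : C[X]) : derK C (ι C q) = ι C (derivative q) := by
  change (toDualK C (ι C q)).snd = _
  rw [toDualK_ι, toDual_snd]

theorem derK_iter (n : ℕ) (q : C[X]) : (⇑(derK C))^[n] (ι C q) = ι C (derivative^[n] q) := by
  induction n with
  | zero => rfl
  | succ n ih => rw [Function.iterate_succ_apply', ih, derK_ι, Function.iterate_succ_apply']

theorem der_p (p : ℕ) [Fact p.Prime] [CharP C p] (q : C[X]) : derivative^[p] q = 0 := by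
  rw [← Polynomial.factorial_smul_hasseDeriv]
  have h : ((p.factorial : ℕ) : C[X]) = 0 := by
    obtain ⟨k, hk⟩ := Nat.dvd_factorial (Fact.out : p.Prime).pos le_rfl
    rw [hk, Nat.cast_mul, CharP.cast_eq_zero, zero_mul]
  change p.factorial • (hasseDeriv p) q = 0
  rw [← Nat.cast_smul_eq_nsmul C[X], h, zero_smul]

theorem frac : S_Frac := by
  intro C _
  refine ⟨derK C, derK_ι C, fun p _ _ c => ?_⟩
  have : CharP (KX C) p := charP_of_injective_algebraMap (IsFractionRing.injective C[X] (KX C)) p
  obtain ⟨a, b, hb, rfl⟩ := IsFractionRing.div_surjective (A := C[X]) c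
  have hb0 : ι C b ≠ 0 := IsFractionRing.to_map_ne_zero_of_mem_nonZeroDivisors hb
  have h1 := der_pow p (derK C) (ι C a / ι C b) (ι C b)
  rw [div_mul_cancel₀ _ hb0, derK_iter, derK_iter, der_p, der_p, map_zero, mul_zero,
    add_zero] at h1
  exact (mul_eq_zero.1 h1.symm).resolve_right hb0

end Pool.Agent.Helper12.BM
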