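import Pool.Agent.Helper12.BM.FewA
import Pool.Graph.R_pool_sql_team_seeded_843ab51a.V11263.PCu.HWd

/-!
# The Hasse-Witt determinant of the family is not zero (from the library)
-/

set_option autoImplicit false

open Polynomial Matrix Finset

namespace Pool.Agent.Helper12.BM

open Pool.Agent.Helper62.BM

theorem hwdet : S_HWdet := by
  intro k _ p _ _ hp2 g hg hgp a ha
  have h := Pool.Agent.V11263.PCu.det_ne (k := k) p hp2 g hg hgp a ha
  have e : Pool.Agent.Results.MP_2ca583_ag.HasseWittClassification.hasseWitt p g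
      (Pool.Agent.V11263.PCu.fm a) = (YX p g a).submatrix id lo := by
    ext1 i j
    have h1 : p * ((i : ℕ) + 1) = (p * ((i : ℕ) + 1) - 1) + 1 := by
      have : 0 < p * ((i : ℕ) + 1) := Nat.mul_pos (Fact.out : p.Prime).pos (Nat.succ_pos _)
      omega
    show (X ^ ((j : ℕ) + 1) * (Pool.Agent.V11263.PCu.fm a) ^ ((p - 1) / 2)).coeff
      (p * ((i : ℕ) + 1)) = (X ^ (j : ℕ) * fmx a ^ ((p - 1) / 2)).coeff (p * ((i : ℕ) + 1) - 1)
    rw [h1, pow_succ', mul_assoc, coeff_X_mul, Nat.add_sub_cancel]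
    rfl
  rw [← e]
  exact h

end Pool.Agent.Helper12.BM
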