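import Pool.Agent.Helper12.BM.FewC
import Pool.Agent.Helper62.BM.KStm

/-!
# Few zeros for the blocks of the Hasse-Witt matrix of cyclic covers
-/

set_option autoImplicit false

open Polynomial Matrix Finset

namespace Pool.Agent.Helper12.BM

open Pool.Agent.Helper62.BM
open Pool.Agent.Helper36.BM (mon shift degree_shift mon_ode aeval_eq_sum_mon)

section ode

variable {C : Type} [CommRing C]

/-- The differential equation with general constants. -/
theorem ode1k {g n : ℕ} (μ ν : C[X]) (a : Fin n → C) (Y : Matrix (Fin g) (Fin n) C[X])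
    (h : ∀ i j, μ * (X - Polynomial.C (a j)) *
      derivative ((Y * (Em a).map Polynomial.C) i j) =
      ν * ∑ m ∈ univ.erase j, (Y * (Em a).map Polynomial.C) i m) (i : Fin g) (l : Fin n) :
    (μ * (∏ j, (X - Polynomial.C (a j))) * Polynomial.C (Em a).det) * derivative (Y i l) =
      ∑ m, Y i m * (ν * b1 a m l) := by
  classical
  have h1 : (μ * (∏ j, (X - Polynomial.C (a j)))) •
      (Y.map derivative * (Em a).map Polynomial.C) =
      ν • (Y * (Em a).map Polynomial.C * b0 a) := by
    ext1 i j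
    have e1 : (Y.map derivative * (Em a).map Polynomial.C) i j =
        derivative ((Y * (Em a).map Polynomial.C) i j) := by
      rw [Matrix.mul_apply, Matrix.mul_apply, derivative_sum]
      refine Finset.sum_congr rfl fun m _ => ?_
      rw [Matrix.map_apply, Matrix.map_apply, derivative_mul, derivative_C, mul_zero, add_zero]
    have e2 : (∏ j, (X - Polynomial.C (a j))) = bp a j * (X - Polynomial.C (a j)) := by
      rw [bp, Finset.prod_erase_mul _ _ (Finset.mem_univ j)]
    rw [Matrix.smul_apply, smul_eq_mul, e1, e2]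
    calc μ * (bp a j * (X - Polynomial.C (a j))) * derivative ((Y * (Em a).map Polynomial.C) i j)
        = bp a j * (μ * (X - Polynomial.C (a j)) *
          derivative ((Y * (Em a).map Polynomial.C) i j)) := by ring
      _ = (ν • (Y * (Em a).map Polynomial.C * b0 a)) i j := by
        rw [h, Matrix.smul_apply, smul_eq_mul, mul_left_comm]
        congr 1
        rw [Matrix.mul_apply, ← Finset.add_sum_erase univ _ (Finset.mem_univ j), b0,
          Matrix.of_apply, if_pos rfl, mul_zero, zero_add, Finset.mul_sum]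
        refine Finset.sum_congr rfl fun m hm => ?_
        rw [Matrix.of_apply, if_neg (Finset.ne_of_mem_erase hm), mul_comm]
  have e3 : (Em a).map Polynomial.C * ((Em a).adjugate).map Polynomial.C =
      Polynomial.C (Em a).det • (1 : Matrix (Fin n) (Fin n) C[X]) := by
    rw [← Matrix.map_mul, Matrix.mul_adjugate]
    ext1 x y
    rw [Matrix.map_apply, Matrix.smul_apply, Matrix.smul_apply, smul_eq_mul, smul_eq_mul, map_mul]
    congr 1
    rw [Matrix.one_apply, Matrix.one_apply]
    split_ifs <;> simp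
  have h2 : (μ * (∏ j, (X - Polynomial.C (a j))) * Polynomial.C (Em a).det) • Y.map derivative =
      ν • (Y * b1 a) := by
    calc (μ * (∏ j, (X - Polynomial.C (a j))) * Polynomial.C (Em a).det) • Y.map derivative =
          (μ * (∏ j, (X - Polynomial.C (a j)))) •
          (Y.map derivative * ((Em a).map Polynomial.C * ((Em a).adjugate).map Polynomial.C)) := by
          rw [e3, Matrix.mul_smul, Matrix.mul_one, smul_smul]
      _ = ((μ * (∏ j, (X - Polynomial.C (a j)))) •
          (Y.map derivative * (Em a).map Polynomial.C)) * ((Em a).adjugate).map Polynomial.C := by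
          rw [← Matrix.mul_assoc, Matrix.smul_mul]
      _ = ν • (Y * b1 a) := by
          rw [h1, b1, Matrix.smul_mul]
          simp only [Matrix.mul_assoc]
  have := congrFun (congrFun h2 i) l
  rw [Matrix.smul_apply, smul_eq_mul, Matrix.map_apply, Matrix.smul_apply, smul_eq_mul,
    Matrix.mul_apply, Finset.mul_sum] at this
  rw [this]
  exact Finset.sum_congr rfl fun m _ => by ring

end ode

section zero

variable {A K : Type} [CommRing A] [CommRing K] (φ : A →+* K) {g n d : ℕ}

/-- The coefficients. -/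
noncomputable def Fk (em : Fin g → Fin n) (G : MvPolynomial (Fin g × Fin g) A[X])
    (m : Jd g n d) : A[X] :=
  (MvPolynomial.rename (Prod.map id em) G).coeff m.1

theorem sum_Fk (em : Fin g → Fin n) (G : MvPolynomial (Fin g × Fin g) A[X])
    (hG : G.totalDegree ≤ d) (Y : Matrix (Fin g) (Fin n) K[X]) :
    MvPolynomial.eval₂ (mapRingHom φ) (fun s : Fin g × Fin g => Y s.1 (em s.2)) G =
      ∑ m : Jd g n d, (Fk em G m).map φ * mon Y m.1 := by
  classical
  set G' := MvPolynomial.rename (Prod.map id em) G with hG'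
  have e1 : MvPolynomial.eval₂ (mapRingHom φ) (fun s : Fin g × Fin g => Y s.1 (em s.2)) G =
      MvPolynomial.aeval (fun s : Fin g × Fin n => Y s.1 s.2)
        (MvPolynomial.map (mapRingHom φ) G') := by
    rw [MvPolynomial.aeval_eq_eval₂Hom, MvPolynomial.coe_eval₂Hom, MvPolynomial.eval₂_map, hG',
      MvPolynomial.eval₂_rename]
    rfl
  have hd : (MvPolynomial.map (mapRingHom φ) G').totalDegree ≤ d := by
    have h1 := (MvPolynomial.totalDegree_rename_le (Prod.map id em) G).trans hG
    refine le_trans ?_ h1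
    rw [MvPolynomial.totalDegree, MvPolynomial.totalDegree]
    exact Finset.sup_mono (MvPolynomial.support_map_subset _ _)
  rw [e1, aeval_eq_sum_mon]
  have hsub : (MvPolynomial.map (mapRingHom φ) G').support ⊆
      (Finsupp.finite_of_degree_le (σ := Fin g × Fin n) d).toFinset := by
    intro m hm
    rw [Set.Finite.mem_toFinset, Set.mem_ofPred_eq]
    refine le_trans ?_ ((MvPolynomial.le_totalDegree hm).trans hd)
    exact le_of_eq rfl
  rw [Finset.sum_subset hsub]
  · rw [Finset.sum_subtype (p := fun m : Fin g × Fin n →₀ ℕ => m.degree ≤ d)]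
    · refine Finset.sum_congr rfl fun m _ => ?_
      rw [MvPolynomial.coeff_map]
      rfl
    · intro m
      rw [Set.Finite.mem_toFinset, Set.mem_ofPred_eq]
  · intro m _ hm
    rw [MvPolynomial.notMem_support_iff] at hm
    rw [hm, zero_mul]

/-- The coefficients of the differential equation of a combination of monomials. -/
noncomputable def M0k (q : A[X]) (β : Matrix (Fin n) (Fin n) A[X]) (F : Jd g n d → A[X])
    (m' : Jd g n d) : A[X] :=
  q * derivative (F m') + ∑ m : Jd g n d, F m * Mm β m' m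

theorem ode_zero_k (q : A[X]) (β : Matrix (Fin n) (Fin n) A[X])
    (β' : Matrix (Fin n) (Fin n) K[X]) (hβ : ∀ l m, (β l m).map φ = β' l m)
    (F : Jd g n d → A[X]) (Y : Matrix (Fin g) (Fin n) K[X])
    (h : ∀ i l, q.map φ * derivative (Y i l) = ∑ m, Y i m * β' m l) :
    q.map φ * derivative (∑ m : Jd g n d, (F m).map φ * mon Y m.1) =
      ∑ m' : Jd g n d, (M0k q β F m').map φ * mon Y m'.1 := by
  rw [derivative_sum, Finset.mul_sum]
  have e1 : ∀ m : Jd g n d, q.map φ * derivative ((F m).map φ * mon Y m.1) =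
      q.map φ * (derivative (F m)).map φ * mon Y m.1 +
        ∑ m' : Jd g n d, (F m).map φ * (Mm β' m' m * mon Y m'.1) := by
    intro m
    rw [derivative_mul, derivative_map, mul_add, ← Finset.mul_sum, ← mon_ode' Y _ β' h]
    ring
  rw [Finset.sum_congr rfl fun m _ => e1 m, Finset.sum_add_distrib, Finset.sum_comm,
    ← Finset.sum_add_distrib]
  refine Finset.sum_congr rfl fun m' _ => ?_
  rw [M0k, Polynomial.map_add, Polynomial.map_mul, Polynomial.map_sum, add_mul, Finset.sum_mul]
  congr 1
  refine Finset.sum_congr rfl fun m _ => ?_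
  rw [Polynomial.map_mul, map_Mm φ β β' hβ]
  ring

end zero

theorem ι_injk (k : Type) [Field k] : Function.Injective (ι k) :=
  IsFractionRing.injective k[X] (KX k)

theorem map_Em_ιk {k : Type} [Field k] {n : ℕ} (a : Fin n → k) :
    ((Em a).map Polynomial.C).map (ι k) = Em (aX a) := by
  exact map_Em ((ι k).comp Polynomial.C) a

/-- The image of the frame in the field of rational functions is horizontal. -/
theorem horKk (hHWb : K_HWb) {k : Type} [Field k] (p : ℕ) [Fact p.Prime] [CharP k p] (q : ℕ)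
    (hq : q < p) (d n : ℕ) (a : Fin n → k) (D : Der (KX k)) (hD : IsDer D) (κ : KX k)
    (hκ : κ = (q : KX k) + 1) (i : Fin d) (j : Fin n) :
    D (((YK p q d a).map (ι k) * Em (aX a)) i j) =
      (((YK p q d a).map (ι k) * Em (aX a)) * Bk κ (tX k) (aX a)) i j := by
  classical
  have e1 : (YK p q d a).map (ι k) * Em (aX a) =
      (YK p q d a * (Em a).map Polynomial.C).map (ι k) := by
    rw [Matrix.map_mul, map_Em_ιk]
  rw [e1, Matrix.map_apply, hD]
  conv_rhs => rw [Matrix.mul_apply]
  have h := congrArg (ι k) (hHWb k p q hq d n a i j)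
  rw [map_mul, map_mul, map_sum, map_sub, map_add, map_natCast, map_one] at h
  have hne : (tX k - aX a j) ≠ 0 := by
    rw [← map_sub]
    intro h0
    have := ι_injk k (h0.trans (map_zero (ι k)).symm)
    exact X_sub_C_ne_zero _ this
  rw [← Finset.add_sum_erase _ _ (Finset.mem_univ j), Bk, Matrix.of_apply, if_pos rfl, mul_zero,
    zero_add]
  apply mul_left_cancel₀ hne
  rw [Finset.mul_sum]
  refine h.trans ?_
  rw [Finset.mul_sum]
  refine Finset.sum_congr rfl fun m hm => ?_
  rw [Matrix.of_apply, if_neg (Finset.ne_of_mem_erase hm), Matrix.map_apply, hκ]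
  have e2 : (tX k - aX a j) * ((ι k) ((YK p q d a * (Em a).map Polynomial.C) i m) *
      (((q : KX k) + 1) * (tX k - aX a j)⁻¹)) = ((q : KX k) + 1) *
      (ι k) ((YK p q d a * (Em a).map Polynomial.C) i m) *
      ((tX k - aX a j) * (tX k - aX a j)⁻¹) := by ring
  rw [e2, mul_inv_cancel₀ hne, mul_one]

theorem dK_lt {n m r : ℕ} (hn : 2 ≤ n) (hr : r < m) : dK n m r < n := by
  unfold dK
  have h1 : (n - 1) * r / m < n - 1 := by
    rw [Nat.div_lt_iff_lt_mul (by omega)]
    exact Nat.mul_lt_mul_of_pos_left hr (by omega)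
  omega

theorem kFewG (hStep : S_Step) (hNV : K_NV) (hFrac : S_Frac) (hHWb : K_HWb) (hHWdeg : K_HWdeg)
    (hHWrank : K_HWrank) (hE : S_EDet) : K_FewG := by
  intro n m r hn hr hrm hmn h2r A _ _ _ a ha G hG ε hε
  classical
  have hdn := dK_lt hn hrm
  have hm0 : 0 < m := by omega
  let em : Fin (dK n m r) → Fin n := Fin.castLE hdn.le
  have hem : Function.Injective em := Fin.castLE_injective hdn.le
  set d := G.totalDegree with hd
  have hη₀ : MvPolynomial.rename (Prod.map id em : Fin (dK n m r) × Fin (dK n m r) →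
      Fin (dK n m r) × Fin n) G ≠ 0 := by
    intro h0
    apply hG
    apply MvPolynomial.rename_injective _ (Function.injective_id.prodMap hem)
    rw [h0, map_zero]
  have hdet : (Em a).det ≠ 0 := by
    let F := FractionRing A
    let ψ : A →+* F := algebraMap A F
    have hinj : Function.Injective ψ := IsFractionRing.injective A F
    intro h0
    refine hE F n (fun j => ψ (a j)) (hinj.comp ha) ?_
    rw [← map_Em]
    have := RingHom.map_det ψ (Em a)
    rw [h0, map_zero] at this
    exact this.symm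
  have hq0 : (m : A[X]) * (∏ j, (X - Polynomial.C (a j))) * Polynomial.C (Em a).det ≠ 0 := by
    refine mul_ne_zero (mul_ne_zero ?_ ?_) (by rwa [Ne, Polynomial.C_eq_zero])
    · exact Nat.cast_ne_zero.2 hm0.ne'
    · rw [Finset.prod_ne_zero_iff]
      exact fun j _ => X_sub_C_ne_zero _
  set qA : A[X] := (m : A[X]) * (∏ j, (X - Polynomial.C (a j))) * Polynomial.C (Em a).det with hqA
  let βA : Matrix (Fin n) (Fin n) A[X] := Matrix.of fun i j => ((m - r : ℕ) : A[X]) * b1 a i j
  obtain ⟨e, A₀, β, p₁, a₁, ha₁, hst⟩ := stepJ hStep A (Fin (dK n m r) × Fin n)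
    (Jd (dK n m r) n d) (MvPolynomial.rename (Prod.map id em) G)
    (fun u => ∏ s, (MvPolynomial.X s) ^ u.1 s) hη₀ qA (M0k qA βA (Fk em G)) (Mm βA) hq0 ε hε
    ((univ.sup fun u : Jd (dK n m r) n d => (Fk em G u).natDegree) + d)
  set Dm := univ.sup fun u : Jd (dK n m r) n d => (Fk em G u).natDegree with hDm
  have hmn' : ¬ m ∣ (n - 1) * (m - r) := by
    intro h
    apply hmn
    have h1 : m ∣ (n - 1) * (m - r) + (n - 1) * r := by
      rw [← mul_add, Nat.sub_add_cancel hrm.le]
      exact Dvd.intro_left _ rfl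
    exact (Nat.dvd_add_right h).1 h1
  obtain ⟨p₂, hnv⟩ := hNV n m (m - r) (dK n m r) hn (by omega) (by omega) hmn' (by omega) hdn e A₀ β
  obtain ⟨N, hrk⟩ := hHWrank n m r hn hr hrm hmn
  refine ⟨p₁ + p₂ + N + m + 3, a₁ * ∏ i, ∏ j ∈ univ.erase i, (a i - a j), ?_, ?_⟩
  · refine mul_ne_zero ha₁ ?_
    rw [Finset.prod_ne_zero_iff]
    intro i _
    rw [Finset.prod_ne_zero_iff]
    intro j hj h0
    exact (Finset.ne_of_mem_erase hj) (ha (sub_eq_zero.mp h0)).symm
  intro p _ k _ _ φ hp hmp hφ T hT
  rw [map_mul] at hφ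
  have hφ₁ := left_ne_zero_of_mul hφ
  have hφ₂ := right_ne_zero_of_mul hφ
  have ha' : Function.Injective fun j => φ (a j) := by
    intro i j hij
    by_contra hne
    apply hφ₂
    rw [map_prod]
    refine Finset.prod_eq_zero (Finset.mem_univ i) ?_
    rw [map_prod]
    refine Finset.prod_eq_zero (Finset.mem_erase.mpr ⟨Ne.symm hne, Finset.mem_univ j⟩) ?_
    rw [map_sub, sub_eq_zero]
    exact hij
  obtain ⟨u, hu⟩ := hmp
  have hu' : (p - 1) / m = u := by rw [hu, Nat.mul_div_cancel_left _ hm0]
  set q := r * ((p - 1) / m) with hq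
  have hqu : q = r * u := by rw [hq, hu']
  have hqm : m * q = r * (p - 1) := by rw [hqu, hu]; ring
  have hqp : q < p := by
    have h1 : q ≤ m * u := by rw [hqu]; exact Nat.mul_le_mul_right _ hrm.le
    omega
  have hp1 : ((p - 1 : ℕ) : k) = -1 := by
    have h1 : ((p - 1 + 1 : ℕ) : k) = 0 := by
      rw [Nat.sub_add_cancel (by omega), CharP.cast_eq_zero]
    push_cast at h1
    exact eq_neg_of_add_eq_zero_left h1
  -- `m (q + 1) = m - r` in `k`
  have hmq : (m : k) * ((q : k) + 1) = ((m - r : ℕ) : k) := by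
    have h1 : (m : k) * (q : k) = (r : k) * ((p - 1 : ℕ) : k) := by
      rw [← Nat.cast_mul, ← Nat.cast_mul, hqm]
    rw [hp1] at h1
    rw [mul_add, h1, Nat.cast_sub hrm.le]
    ring
  have hmqX : (m : k[X]) * ((q : k[X]) + 1) = ((m - r : ℕ) : k[X]) := by
    have := congrArg (Polynomial.C : k → k[X]) hmq
    simpa using this
  have hmK0 : (m : KX k) ≠ 0 := by
    intro h0
    rw [CharP.cast_eq_zero_iff (KX k) p] at h0
    have := Nat.le_of_dvd hm0 h0
    omega
  have hκ : (((m - r : ℕ) : KX k) / (m : KX k)) = (q : KX k) + 1 := by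
    rw [div_eq_iff hmK0, mul_comm]
    have := congrArg (ι k) hmqX
    rw [map_mul, map_add, map_natCast, map_natCast, map_natCast, map_one] at this
    exact this.symm
  obtain ⟨D, hD, -⟩ := hFrac k
  have hNVp := hnv p k (by omega) (fun j => φ (a j)) ha' D hD
    ((YK p q (dK n m r) fun j => φ (a j)).map (ι k))
    (horKk hHWb p q hqp (dK n m r) n (fun j => φ (a j)) D hD _ hκ)
    (hrk k p (by omega) ⟨u, hu⟩ (fun j => φ (a j)) ha')
  have hqmap : qA.map φ = (m : k[X]) * (∏ j, (X - Polynomial.C (φ (a j)))) *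
      Polynomial.C (Em fun j => φ (a j)).det := by
    have h1 : (Em fun j => φ (a j)).det = φ (Em a).det := by
      rw [← map_Em]
      exact (RingHom.map_det φ (Em a)).symm
    rw [hqA, h1, Polynomial.map_mul, Polynomial.map_mul, Polynomial.map_prod]
    simp
  have hβmap : ∀ i j, (βA i j).map φ =
      (Matrix.of fun i j => ((m - r : ℕ) : k[X]) * b1 (fun j => φ (a j)) i j :
        Matrix (Fin n) (Fin n) k[X]) i j := by
    intro i j
    change (((m - r : ℕ) : A[X]) * b1 a i j).map φ =
      ((m - r : ℕ) : k[X]) * b1 (fun j => φ (a j)) i j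
    rw [Polynomial.map_mul, Polynomial.map_natCast, map_b1]
  have hode : ∀ i l, qA.map φ * derivative ((YK p q (dK n m r) fun j => φ (a j)) i l) =
      ∑ v, (YK p q (dK n m r) fun j => φ (a j)) i v *
        (Matrix.of fun i j => ((m - r : ℕ) : k[X]) * b1 (fun j => φ (a j)) i j :
        Matrix (Fin n) (Fin n) k[X]) v l := by
    intro i l
    rw [hqmap]
    refine ode1k (m : k[X]) ((m - r : ℕ) : k[X]) (fun j => φ (a j)) _ (fun i j => ?_) i l
    rw [mul_assoc, hHWb k p q hqp (dK n m r) n (fun j => φ (a j)) i j, ← mul_assoc, hmqX]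
  have hZ₀ := sum_Fk (d := d) φ em G le_rfl (YK p q (dK n m r) fun j => φ (a j))
  have hdY : ∀ i l, ((YK p q (dK n m r) fun j => φ (a j)) i l).natDegree ≤ p := by
    intro i l
    have h1 := hHWdeg k p q n (fun j => φ (a j)) i l
    exact h1.trans ((Nat.sub_le _ _).trans (Nat.sub_le _ _))
  have hdm : ∀ v : Jd (dK n m r) n d,
      (mon (YK p q (dK n m r) fun j => φ (a j)) v.1).natDegree ≤ d * p := by
    intro v
    exact (natDegree_mon _ _ hdY v.1).trans (Nat.mul_le_mul_right _ v.2)
  refine hst p k φ (by omega) hφ₁ (MvPolynomial.eval₂ (mapRingHom φ)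
    (fun s : Fin (dK n m r) × Fin (dK n m r) => (YK p q (dK n m r) fun j => φ (a j)) s.1 (em s.2))
      G) (fun v => mon (YK p q (dK n m r) fun j => φ (a j)) v.1)
    (fun s => ((YK p q (dK n m r) fun j => φ (a j)).map (ι k)) s.1 s.2)
    ?_ ?_ ?_ ?_ ?_ ?_ hNVp T ?_
  · rw [MvPolynomial.eval₂_rename, MvPolynomial.eval₂_comp_left]
    rfl
  · intro v
    rw [mon, map_prod, ← MvPolynomial.coe_eval₂Hom, map_prod]
    refine Finset.prod_congr rfl fun s _ => ?_
    rw [map_pow, map_pow, MvPolynomial.coe_eval₂Hom, MvPolynomial.eval₂_X]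
    rfl
  · rw [hZ₀]
    exact ode_zero_k φ qA βA _ hβmap (Fk em G) _ hode
  · intro v
    rw [mon_ode' _ _ _ hode v]
    refine Finset.sum_congr rfl fun v' _ => ?_
    rw [map_Mm φ βA _ hβmap]
  · rw [hZ₀, add_mul]
    refine natDegree_sum_le_of_forall_le _ _ fun v _ => ?_
    refine natDegree_mul_le.trans (Nat.add_le_add ?_ (hdm v))
    have h1 : ((Fk em G v).map φ).natDegree ≤ Dm := by
      refine natDegree_map_le.trans ?_
      exact Finset.le_sup (f := fun v : Jd (dK n m r) n d => (Fk em G v).natDegree)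
        (Finset.mem_univ v)
    exact h1.trans (Nat.le_mul_of_pos_right _ (by omega))
  · intro v
    refine (hdm v).trans ?_
    rw [add_mul]
    exact Nat.le_add_left _ _
  · intro t ht
    obtain ⟨h1, h3⟩ := hT t ht
    refine ⟨h1, ?_⟩
    rw [← coe_evalRingHom, MvPolynomial.eval₂_comp_left]
    exact h3

end Pool.Agent.Helper12.BM
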