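import Pool.Agent.Helper62.BM.Stm

/-!
# `p`-th powers of connections in characteristic `p` (package P1)

One lemma is used throughout: if `T (m u v) = m (A u) v + m u (B v)` for an additive `T` then
`T ^ n (m u v) = ∑ choose n i m (A ^ i u) (B ^ (n - i) v)`.
-/

set_option autoImplicit false

open Polynomial Matrix Finset

namespace Pool.Agent.Helper12.BM

open Pool.Agent.Helper62.BM

section leib

variable {U V W : Type} [AddCommMonoid W]

theorem leib (A : U → U) (B : V → V) (T : W → W) (h0 : T 0 = 0)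
    (hT : ∀ x y, T (x + y) = T x + T y) (m : U → V → W)
    (h : ∀ u v, T (m u v) = m (A u) v + m u (B v)) (n : ℕ) (u : U) (v : V) :
    T^[n] (m u v) = ∑ i ∈ range (n + 1), n.choose i • m (A^[i] u) (B^[n - i] v) := by
  let Th : W →+ W := { toFun := T, map_zero' := h0, map_add' := hT }
  have hTh : ∀ w, T w = Th w := fun _ => rfl
  induction n with
  | zero => simp
  | succ n ih =>
    rw [Function.iterate_succ_apply', ih, hTh, map_sum]
    rw [sum_choose_succ_nsmul (fun i j => m (A^[i] u) (B^[j] v)) n, ← sum_add_distrib]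
    refine sum_congr rfl fun i hi => ?_
    rw [map_nsmul, ← hTh, h, nsmul_add, add_comm]
    have hi' : n + 1 - i = (n - i) + 1 := by
      have := mem_range.1 hi
      omega
    rw [hi', Function.iterate_succ_apply', Function.iterate_succ_apply']

theorem leib_p (p : ℕ) (hp : p.Prime) (hW : ∀ w : W, p • w = 0) (A : U → U) (B : V → V)
    (T : W → W) (h0 : T 0 = 0)
    (hT : ∀ x y, T (x + y) = T x + T y) (m : U → V → W)
    (h : ∀ u v, T (m u v) = m (A u) v + m u (B v)) (u : U) (v : V) :
    T^[p] (m u v) = m (A^[p] u) v + m u (B^[p] v) := by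
  obtain ⟨k, hk⟩ : ∃ k, p = k + 1 := ⟨p - 1, by have := hp.pos; omega⟩
  rw [leib A B T h0 hT m h p u v, sum_range_succ]
  have h1 : ∑ i ∈ range p, p.choose i • m (A^[i] u) (B^[p - i] v) = m u (B^[p] v) := by
    rw [sum_eq_single 0]
    · simp
    · intro i hi hi0
      obtain ⟨c, hc⟩ := hp.dvd_choose_self hi0 (mem_range.1 hi)
      rw [hc, mul_comm, mul_nsmul, hW]
    · intro h
      exact absurd (mem_range.2 hp.pos) h
  rw [h1, add_comm]
  simp

theorem iterate_add' (T : W → W) (hT : ∀ x y, T (x + y) = T x + T y) (n : ℕ) (x y : W) :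
    T^[n] (x + y) = T^[n] x + T^[n] y := by
  induction n with
  | zero => rfl
  | succ n ih => rw [Function.iterate_succ_apply', ih, hT, ← Function.iterate_succ_apply' T,
      ← Function.iterate_succ_apply' T]

theorem iterate_zero' (T : W → W) (h0 : T 0 = 0) (n : ℕ) : T^[n] 0 = 0 := by
  induction n with
  | zero => rfl
  | succ n ih => rw [Function.iterate_succ_apply', ih, h0]

theorem iterate_sum' {J : Type} (T : W → W) (h0 : T 0 = 0) (hT : ∀ x y, T (x + y) = T x + T y)
    (n : ℕ) (s : Finset J) (f : J → W) : T^[n] (∑ j ∈ s, f j) = ∑ j ∈ s, T^[n] (f j) := by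
  classical
  induction s using Finset.induction_on with
  | empty => simpa using iterate_zero' T h0 n
  | insert a s ha ih => rw [sum_insert ha, sum_insert ha, iterate_add' T hT, ih]

end leib

section conn

variable {F : Type} [Field F] (p : ℕ) [Fact p.Prime] [CharP F p]

omit [Fact p.Prime] in
theorem char_nsmul {V : Type} [AddCommGroup V] [Module F V] (w : V) : p • w = 0 := by
  rw [← Nat.cast_smul_eq_nsmul F, CharP.cast_eq_zero, zero_smul]

theorem nab_add {n : Type} [Fintype n] (D : Derivation ℤ F F) (B : Matrix n n F)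
    (u v : n → F) : nab D B (u + v) = nab D B u + nab D B v := by
  funext i
  simp only [nab, Pi.add_apply, map_add, Matrix.mulVec_add]
  ring

theorem nab_zero {n : Type} [Fintype n] (D : Derivation ℤ F F) (B : Matrix n n F) :
    nab D B (0 : n → F) = 0 := by
  funext i
  simp [nab]

theorem nab_smul {n : Type} [Fintype n] (D : Derivation ℤ F F) (B : Matrix n n F) (c : F)
    (v : n → F) : nab D B (c • v) = D c • v + c • nab D B v := by
  funext i
  simp only [nab, Pi.add_apply, Pi.smul_apply, smul_eq_mul, Derivation.leibniz,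
    Matrix.mulVec_smul]
  ring

omit [Fact p.Prime] [CharP F p] in
theorem pcv_col {n : Type} [Fintype n] [DecidableEq n] (D : Derivation ℤ F F)
    (B : Matrix n n F) (j : n) : (nab D B)^[p] (Pi.single j 1) = fun i => pcv D B p i j := rfl

theorem pcv : S_Pcv := by
  intro F _ p _ _ D hD n _ _ B v
  have hv : v = ∑ j, v j • (Pi.single j 1 : n → F) := by
    funext i
    simp [Finset.sum_apply, Pi.single_apply]
  have h1 : ∀ j, (nab D B)^[p] (v j • (Pi.single j 1 : n → F)) =
      v j • (fun i => Pool.Agent.Helper62.BM.pcv D B p i j) := by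
    intro j
    rw [leib_p p Fact.out (fun w => char_nsmul (F := F) p w) (⇑D) (nab D B) (nab D B)
      (nab_zero D B) (nab_add D B) (fun c v => c • v) (nab_smul D B), hD, zero_smul, zero_add,
      pcv_col]
  conv_lhs => rw [hv]
  rw [iterate_sum' _ (nab_zero D B) (nab_add D B)]
  funext i
  rw [Finset.sum_apply, Matrix.mulVec, dotProduct]
  refine sum_congr rfl fun j _ => ?_
  rw [h1 j, Pi.smul_apply, smul_eq_mul, mul_comm]

/-- the operator of `S_PcvT` -/
def TM {F : Type} [Field F] {n m : Type} [Fintype n] [Fintype m] (D : F → F)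
    (B₁ : Matrix n n F) (B₂ : Matrix m m F) (M : Matrix n m F) : Matrix n m F :=
  Matrix.of fun i j => D (M i j) + (B₁ * M + M * B₂ᵀ) i j

theorem TM_add {n m : Type} [Fintype n] [Fintype m] (D : Derivation ℤ F F)
    (B₁ : Matrix n n F) (B₂ : Matrix m m F) (M N : Matrix n m F) :
    TM D B₁ B₂ (M + N) = TM D B₁ B₂ M + TM D B₁ B₂ N := by
  ext i j
  simp only [TM, Matrix.of_apply, Matrix.add_apply, map_add, Matrix.mul_add, Matrix.add_mul]
  ring

theorem TM_zero {n m : Type} [Fintype n] [Fintype m] (D : Derivation ℤ F F)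
    (B₁ : Matrix n n F) (B₂ : Matrix m m F) : TM D B₁ B₂ (0 : Matrix n m F) = 0 := by
  ext i j
  simp [TM]

theorem TM_vec {n m : Type} [Fintype n] [Fintype m] (D : Derivation ℤ F F)
    (B₁ : Matrix n n F) (B₂ : Matrix m m F) (u : n → F) (v : m → F) :
    TM D B₁ B₂ (Matrix.vecMulVec u v) =
      Matrix.vecMulVec (nab D B₁ u) v + Matrix.vecMulVec u (nab D B₂ v) := by
  ext i j
  simp only [TM, Matrix.of_apply, Matrix.add_apply, Matrix.vecMulVec_apply, nab,
    Derivation.leibniz, smul_eq_mul]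
  rw [Matrix.mul_vecMulVec, Matrix.vecMulVec_mul, Matrix.vecMulVec_apply,
    Matrix.vecMulVec_apply, Matrix.vecMul_transpose]
  ring

theorem pcvT : S_PcvT := by
  intro F _ p _ _ D hD n m _ _ _ _ B₁ B₂ M
  change (TM D B₁ B₂)^[p] M = _
  have hM : M = ∑ j, Matrix.vecMulVec (fun i => M i j) (Pi.single j 1 : m → F) := by
    ext i k
    rw [Matrix.sum_apply]
    simp [Matrix.vecMulVec_apply, Pi.single_apply]
  have h1 : ∀ j, (TM D B₁ B₂)^[p] (Matrix.vecMulVec (fun i => M i j) (Pi.single j 1 : m → F)) =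
      Matrix.vecMulVec (Pool.Agent.Helper62.BM.pcv D B₁ p *ᵥ fun i => M i j) (Pi.single j 1) +
      Matrix.vecMulVec (fun i => M i j) (fun i => Pool.Agent.Helper62.BM.pcv D B₂ p i j) := by
    intro j
    rw [leib_p p Fact.out (fun w => char_nsmul (F := F) p w) (nab D B₁) (nab D B₂) (TM D B₁ B₂)
      (TM_zero D B₁ B₂) (TM_add D B₁ B₂) Matrix.vecMulVec (TM_vec D B₁ B₂),
      pcv F p D hD n B₁, pcv_col]
  conv_lhs => rw [hM]
  rw [iterate_sum' _ (TM_zero D B₁ B₂) (TM_add D B₁ B₂), sum_congr rfl fun j _ => h1 j,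
    sum_add_distrib]
  congr 1
  · ext i k
    rw [Matrix.sum_apply, Matrix.mul_apply]
    simp [Matrix.vecMulVec_apply, Pi.single_apply, Matrix.mulVec, dotProduct]
  · ext i k
    rw [Matrix.sum_apply, Matrix.mul_apply]
    simp [Matrix.vecMulVec_apply]

theorem pcvD : S_PcvD := by
  intro F _ p _ _ D hD n _ _ B
  ext i j
  have h1 := leib_p p Fact.out (fun w : F => char_nsmul (F := F) p w) (nab D (-Bᵀ)) (nab D B)
    (⇑D) (map_zero D) (map_add D) (fun (r v : n → F) => r ⬝ᵥ v) (fun r v => by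
      simp only [nab, dotProduct, map_sum, Derivation.leibniz, smul_eq_mul]
      rw [sum_add_distrib]
      have e1 : ∑ x, (D (r x) + ((-Bᵀ) *ᵥ r) x) * v x =
          ∑ x, D (r x) * v x - (r ᵥ* B) ⬝ᵥ v := by
        rw [Matrix.neg_mulVec, Matrix.mulVec_transpose, dotProduct, ← sum_sub_distrib]
        refine sum_congr rfl fun x _ => ?_
        rw [Pi.neg_apply]
        ring
      have e2 : ∑ x, r x * (D (v x) + (B *ᵥ v) x) = ∑ x, r x * D (v x) + r ⬝ᵥ (B *ᵥ v) := by
        rw [dotProduct, ← sum_add_distrib]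
        exact sum_congr rfl fun x _ => by ring
      rw [e1, e2, Matrix.dotProduct_mulVec]
      have e3 : ∑ x, v x * D (r x) = ∑ x, D (r x) * v x := sum_congr rfl fun x _ => mul_comm _ _
      rw [e3]
      ring) (Pi.single j 1) (Pi.single i 1)
  rw [Matrix.neg_apply, Matrix.transpose_apply]
  have e4 : (nab D (-Bᵀ))^[p] (Pi.single j 1) ⬝ᵥ (Pi.single i 1) =
      Pool.Agent.Helper62.BM.pcv D (-Bᵀ) p i j := dotProduct_single_one _ _
  have e5 : (Pi.single j 1 : n → F) ⬝ᵥ (nab D B)^[p] (Pi.single i 1) =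
      Pool.Agent.Helper62.BM.pcv D B p j i := single_one_dotProduct _ _
  have h2 : (0 : F) = Pool.Agent.Helper62.BM.pcv D (-Bᵀ) p i j +
      Pool.Agent.Helper62.BM.pcv D B p j i := by
    rw [← e4, ← e5, ← hD (Pi.single j 1 ⬝ᵥ Pi.single i 1)]
    exact h1
  exact eq_neg_of_add_eq_zero_left h2.symm

end conn

end Pool.Agent.Helper12.BM
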