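import Pool.Agent.Helper12.BM.Frac
import Pool.Agent.Helper62.BM.Stm2

/-!
# The substitution `X ↦ X ^ p` (package N7)
-/

set_option autoImplicit false

open Polynomial Finset

namespace Pool.Agent.Helper12.BM

open Pool.Agent.Helper62.BM

/-- `D` kills the fractions of the elements which it kills -/
theorem der_div_zero {K : Type} [Field K] (D : Derivation ℤ K K) {x y : K} (hx : D x = 0)
    (hy : D y = 0) : D (x / y) = 0 := by
  by_cases h : y = 0
  · rw [h, div_zero, map_zero]
  · have h1 : D (x / y * y) = 0 := by rw [div_mul_cancel₀ _ h, hx]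
    rw [Derivation.leibniz, hy, smul_zero, zero_add, smul_eq_mul] at h1
    exact (mul_eq_zero.1 h1).resolve_left h

theorem der_eval₂ {F K : Type} [Field F] [Field K] (D : Derivation ℤ K K) (τ : F →+* K)
    (hτ : ∀ z, D (τ z) = 0) (x : K) (hx : D x = 1) (q : F[X]) :
    D (q.eval₂ τ x) = (derivative q).eval₂ τ x := by
  induction q using Polynomial.induction_on' with
  | add p q hp hq => rw [eval₂_add, map_add, hp, hq, derivative_add, eval₂_add]
  | monomial n a =>
    rw [eval₂_monomial, derivative_monomial, eval₂_monomial, Derivation.leibniz, hτ, smul_zero,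
      add_zero, Derivation.leibniz_pow, hx, smul_eq_mul, smul_eq_mul, mul_one, map_mul,
      map_natCast, nsmul_eq_mul]
    ring

/-- linear independence of the powers of an element with derivative one over the constants -/
theorem indep {F K : Type} [Field F] [Field K] (p : ℕ) [CharP F p]
    (D : Derivation ℤ K K) (τ : F →+* K)
    (hτ : ∀ z, D (τ z) = 0) (x : K) (hx : D x = 1) (n : ℕ) :
    ∀ q : F[X], q.natDegree ≤ n → n < p → q.eval₂ τ x = 0 → q = 0 := by
  induction n with
  | zero =>
    intro q hq _ h
    rw [eq_C_of_natDegree_le_zero hq, eval₂_C, map_eq_zero] at h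
    rw [eq_C_of_natDegree_le_zero hq, h, map_zero]
  | succ n ih =>
    intro q hq hn h
    have h1 : derivative q = 0 := by
      apply ih (derivative q) _ (by omega) (by rw [← der_eval₂ D τ hτ x hx, h, map_zero])
      exact (natDegree_derivative_le q).trans (by omega)
    have h2 : ∀ i, i ≠ 0 → q.coeff i = 0 := by
      intro i hi
      obtain ⟨j, rfl⟩ : ∃ j, i = j + 1 := ⟨i - 1, by omega⟩
      by_cases hj : j + 1 ≤ n + 1
      · have h3 : (derivative q).coeff j = 0 := by rw [h1, coeff_zero]
        rw [coeff_derivative] at h3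
        refine (mul_eq_zero.1 h3).resolve_right fun h4 => ?_
        have h5 : ((j + 1 : ℕ) : F) = 0 := by
          rw [Nat.cast_add, Nat.cast_one]
          exact h4
        rw [CharP.cast_eq_zero_iff F p] at h5
        have h6 := Nat.le_of_dvd (by omega) h5
        omega
      · exact coeff_eq_zero_of_natDegree_lt (by omega)
    have h3 : q = C (q.coeff 0) := by
      ext i
      rw [coeff_C]
      split_ifs with hi
      · rw [hi]
      · exact h2 i hi
    rw [h3, eval₂_C, map_eq_zero] at h
    rw [h3, h, map_zero]

theorem tau : S_Tau := by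
  intro C _ p _ _
  have hp : 0 < p := (Fact.out : p.Prime).pos
  have hinj : Function.Injective ((ι C).comp (expand C p).toRingHom) := by
    intro a b h
    have h1 : expand C p a = expand C p b := IsFractionRing.injective C[X] (KX C) h
    exact expand_injective hp h1
  obtain ⟨τ, hτ⟩ : ∃ τ : KX C →+* KX C, ∀ q, τ (ι C q) = ι C (expand C p q) :=
    ⟨IsFractionRing.lift hinj, fun q => IsFractionRing.lift_algebraMap hinj q⟩
  have hD : ∀ D : Der (KX C), IsDer D → ∀ z, D (τ z) = 0 := by
    intro D hD z
    obtain ⟨a, b, hb, rfl⟩ := IsFractionRing.div_surjective (A := C[X]) z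
    have h1 : ∀ q : C[X], D (ι C (expand C p q)) = 0 := by
      intro q
      rw [hD, derivative_expand, CharP.cast_eq_zero, zero_mul, mul_zero, map_zero]
    change D (τ (ι C a / ι C b)) = 0
    rw [map_div₀, hτ, hτ]
    exact der_div_zero D (h1 a) (h1 b)
  refine ⟨τ, hτ, fun q hq h => ?_, hD⟩
  obtain ⟨D, hD1, -⟩ := frac C
  refine indep p D τ (hD D hD1) (tX C) ?_ q.natDegree q le_rfl hq h
  change D (ι C X) = 1
  rw [hD1, derivative_X, map_one]

end Pool.Agent.Helper12.BM
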